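import Mathlib

/-!
# The local complex Monge-Ampere flow: definitions
-/

namespace Pool.Agent.Lib_helper62.MAFlow

open Matrix ComplexOrder Set Filter Topology Complex
open scoped ContDiff

/-! ### Definitions -/

/-- `ℂⁿ` with its Euclidean norm. -/
abbrev Cn (n : ℕ) := EuclideanSpace ℂ (Fin n)

/-- The `i`-th standard basis vector of `ℂⁿ`. -/
noncomputable def e {n : ℕ} (i : Fin n) : Cn n := EuclideanSpace.single i 1

/-- The Wirtinger derivative `∂f/∂z_i = (∂f/∂x_i - I ∂f/∂y_i)/2`. -/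
noncomputable def dz {n : ℕ} (i : Fin n) (f : Cn n → ℂ) (z : Cn n) : ℂ :=
  (fderiv ℝ f z (e i) - I * fderiv ℝ f z (I • e i)) / 2

/-- The Wirtinger derivative `∂f/∂(conj z_j) = (∂f/∂x_j + I ∂f/∂y_j)/2`. -/
noncomputable def dzbar {n : ℕ} (j : Fin n) (f : Cn n → ℂ) (z : Cn n) : ℂ :=
  (fderiv ℝ f z (e j) + I * fderiv ℝ f z (I • e j)) / 2

/-- The complex Hessian matrix `(∂²f/∂z_i∂(conj z_j))` of a real function `f` at `z`. -/
noncomputable def cHess {n : ℕ} (f : Cn n → ℝ) (z : Cn n) : Matrix (Fin n) (Fin n) ℂ :=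
  fun i j => dz i (dzbar j fun w => (f w : ℂ)) z

/-- Bounded strictly pseudoconvex domain with smooth boundary: a bounded connected nonempty open
set `Ω = {z ∈ V : ρ z < 0}`, where `ρ` is a smooth function on an open neighbourhood `V` of the
closure of `Ω`, with positive definite complex Hessian (that is, smooth and strictly
plurisubharmonic) and with `ρ = 0`, `dρ ≠ 0` on the boundary. -/
structure IsStrictlyPseudoconvex {n : ℕ} (Ω : Set (Cn n)) : Prop where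
  isOpen : IsOpen Ω
  isConnected : IsConnected Ω
  isBounded : Bornology.IsBounded Ω
  exists_defining : ∃ (V : Set (Cn n)) (ρ : Cn n → ℝ), IsOpen V ∧ closure Ω ⊆ V ∧
    ContDiffOn ℝ ∞ ρ V ∧ (∀ z ∈ V, (cHess ρ z).PosDef) ∧ Ω = {z | z ∈ V ∧ ρ z < 0} ∧
    ∀ z ∈ frontier Ω, ρ z = 0 ∧ fderiv ℝ ρ z ≠ 0

/-- Plurisubharmonic function `u : U → [-∞, ∞)` on an open set `U ⊆ ℂⁿ`: upper semicontinuous,
and for every closed complex disc `{z + ζ w : |ζ| ≤ 1} ⊆ U` the value `u z` at the centre is at most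
the mean over the boundary circle. (For an upper semicontinuous function the mean over
the circle is the infimum of the means of the continuous real functions `h ≥ u` on the circle.) -/
structure IsPSH {n : ℕ} (u : Cn n → EReal) (U : Set (Cn n)) : Prop where
  usc : UpperSemicontinuousOn u U
  lt_top : ∀ z ∈ U, u z < ⊤
  submean : ∀ z w : Cn n, (∀ ζ : ℂ, ‖ζ‖ ≤ 1 → z + ζ • w ∈ U) →
    ∀ h : ℂ → ℝ, Continuous h → (∀ ζ : ℂ, ‖ζ‖ = 1 → u (z + ζ • w) ≤ (h ζ : EReal)) →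
      u z ≤ ((Real.circleAverage h 0 1 : ℝ) : EReal)

/-- The hypotheses on the data: `u₀` is plurisubharmonic on an open neighbourhood of the closure
of `Ω`; `φ` is smooth on `closure Ω × [0,T)`, and `φ(z,t) = u₀(z)` for `z ∈ ∂Ω`, `t ∈ [0,T)`. -/
structure IsData {n : ℕ} (Ω : Set (Cn n)) (T : ℝ) (u₀ : Cn n → EReal) (φ : Cn n → ℝ → ℝ) :
    Prop where
  psh : ∃ U : Set (Cn n), IsOpen U ∧ closure Ω ⊆ U ∧ IsPSH u₀ U
  smooth : ContDiffOn ℝ ∞ (fun p : Cn n × ℝ => φ p.1 p.2) (closure Ω ×ˢ Ico 0 T)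
  compat : ∀ z ∈ frontier Ω, ∀ t ∈ Ico 0 T, ((φ z t : ℝ) : EReal) = u₀ z

/-- `u` is a solution of the flow with initial datum `u₀` and boundary data `φ`: it is smooth on
`closure Ω × (0,T)`; `u(·,t)` is strictly plurisubharmonic in `Ω` (positive definite complex
Hessian); `∂ₜ u = log det (∂²u/∂z_i∂(conj z_j))` on `Ω × (0,T)`; `u = φ` on `∂Ω × (0,T)`; and
`u(z,t) → u₀(z)` in `[-∞,∞)` as `t → 0+`, for every `z` in the closure of `Ω`. -/
structure IsSolution {n : ℕ} (Ω : Set (Cn n)) (T : ℝ) (u₀ : Cn n → EReal) (φ : Cn n → ℝ → ℝ)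
    (u : Cn n → ℝ → ℝ) : Prop where
  smooth : ContDiffOn ℝ ∞ (fun p : Cn n × ℝ => u p.1 p.2) (closure Ω ×ˢ Ioo 0 T)
  strictly_psh : ∀ t ∈ Ioo 0 T, ∀ z ∈ Ω, (cHess (fun w => u w t) z).PosDef
  flow : ∀ t ∈ Ioo 0 T, ∀ z ∈ Ω,
    deriv (fun s => u z s) t = Real.log (cHess (fun w => u w t) z).det.re
  boundary : ∀ z ∈ frontier Ω, ∀ t ∈ Ioo 0 T, u z t = φ z t
  initial : ∀ z ∈ closure Ω, Tendsto (fun t => ((u z t : ℝ) : EReal)) (𝓝[>] 0) (𝓝 (u₀ z))

/-- `u₀` has a logarithmic pole at `a` : `u₀ z ≤ ν log ‖z - a‖ + C` near `a`, for some `ν > 0`.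
For a plurisubharmonic function this means that its Lelong number at `a` is positive. -/
def HasLogPole {n : ℕ} (u₀ : Cn n → EReal) (a : Cn n) : Prop :=
  ∃ ν : ℝ, 0 < ν ∧ ∃ C : ℝ, ∀ᶠ z in 𝓝[≠] a, u₀ z ≤ ((ν * Real.log ‖z - a‖ + C : ℝ) : EReal)

/-- The function `z ↦ log ‖z - a‖` with values in `[-∞, ∞)`; its value at `z = a` is `-∞`. -/
noncomputable def logE {n : ℕ} (a z : Cn n) : EReal := ENNReal.log ‖z - a‖ₑ

end Pool.Agent.Lib_helper62.MAFlow
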