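import Mathlib
import Pool.Agent.Lib_helper62.MAFlowDefs

/-!
# The local complex Monge-Ampere flow cannot be started from a logarithmic pole

Let `Ω` be a bounded strictly pseudoconvex domain of `ℂⁿ` with smooth boundary, `n ≥ 1`, `T > 0`.
If the plurisubharmonic initial datum `u₀` has a logarithmic pole (equivalently, a positive Lelong
number) at a point `a` of `Ω`, then the flow
`∂ₜ u = log det (∂²u/∂zᵢ∂z̄ⱼ)` has no solution with initial datum `u₀`.

Proof. Let `M` be half the order of the pole.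
* Comparing `u(·,τ) + ε‖z‖² - κ(t-τ)` with `u` gives almost monotonicity in time; with pointwise
  convergence and compactness it gives locally uniform upper bounds as `t → 0`.
* `W_δ(z,t) = (M-(n+1)t) log(‖z-a‖²+δ) + C + K t` is a supersolution, with `C`, `K` independent
  of `δ ∈ (0,1]`, and `u ≤ W_δ + 1`. At the point `a` and a small time `t₁ > 0`
  the right side tends to `-∞` as `δ → 0`: a contradiction.
-/

namespace Pool.Agent.Lib_helper62.MAFlow

open Matrix ComplexOrder Set Filter Topology Complex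
open scoped ContDiff

/-! ### Matrices -/

lemma det_one_add_ge {n : Type*} [Fintype n] [DecidableEq n] {Q : Matrix n n ℂ}
    (hQ : Q.PosSemidef) : 1 ≤ ((1 + Q).det).re := by
  have hM : (1 + Q).IsHermitian := (isHermitian_one).add hQ.1
  rw [hM.det_eq_prod_eigenvalues]
  have h1 : ∀ i, 1 ≤ hM.eigenvalues i := by
    intro i
    rw [hM.eigenvalues_eq]
    rw [Matrix.add_mulVec, Matrix.one_mulVec, dotProduct_add]
    have h2 := hQ.re_dotProduct_nonneg (hM.eigenvectorBasis i).ofLp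
    have h3 : (star (hM.eigenvectorBasis i).ofLp ⬝ᵥ (hM.eigenvectorBasis i).ofLp) = 1 := by
      have h4 := hM.eigenvectorBasis.orthonormal.1 i
      have h5 := EuclideanSpace.inner_eq_star_dotProduct (𝕜 := ℂ) (hM.eigenvectorBasis i) (hM.eigenvectorBasis i)
      rw [inner_self_eq_norm_sq_to_K, h4] at h5
      rw [dotProduct_comm]
      simpa using h5.symm
    rw [h3]
    simpa using h2
  have h2 : (∏ i, (hM.eigenvalues i : ℂ)) = ((∏ i, hM.eigenvalues i : ℝ) : ℂ) := by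
    push_cast; rfl
  have h3 : 1 ≤ ∏ i, hM.eigenvalues i := by
    calc (1:ℝ) = ∏ i : n, (1:ℝ) := by simp
      _ ≤ ∏ i, hM.eigenvalues i := Finset.prod_le_prod (fun _ _ => zero_le_one) (fun i _ => h1 i)
  have h4 : (∏ i, ((hM.eigenvalues i : ℝ) : ℂ)).re = ∏ i, hM.eigenvalues i := by
    rw [h2, Complex.ofReal_re]
  exact h4 ▸ h3

open scoped MatrixOrder in
lemma det_le_det {n : Type*} [Fintype n] [DecidableEq n] {A B : Matrix n n ℂ}
    (hA : A.PosDef) (hAB : (B - A).PosSemidef) : A.det.re ≤ B.det.re := by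
  have hdA : 0 < A.det := hA.det_pos
  obtain ⟨S, hS⟩ := CStarAlgebra.nonneg_iff_eq_star_mul_self.mp hA.posSemidef.nonneg
  have hS' : A = Sᴴ * S := hS
  have hdS : IsUnit S.det := by
    rw [isUnit_iff_ne_zero]
    intro h0
    rw [hS', det_mul, h0, mul_zero] at hdA
    exact lt_irrefl _ hdA
  have hSi : S⁻¹ * S = 1 := Matrix.nonsing_inv_mul S hdS
  have hSi' : Sᴴ * (S⁻¹)ᴴ = 1 := by
    rw [← conjTranspose_mul, hSi, conjTranspose_one]
  set Q := (S⁻¹)ᴴ * (B - A) * S⁻¹ with hQ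
  have hQp : Q.PosSemidef := hAB.conjTranspose_mul_mul_same S⁻¹
  have hB : B = Sᴴ * (1 + Q) * S := by
    rw [Matrix.mul_add, Matrix.add_mul, Matrix.mul_one, ← hS', hQ]
    have : Sᴴ * ((S⁻¹)ᴴ * (B - A) * S⁻¹) * S = (Sᴴ * (S⁻¹)ᴴ) * (B - A) * (S⁻¹ * S) := by
      simp only [Matrix.mul_assoc]
    rw [this, hSi, hSi', Matrix.one_mul, Matrix.mul_one]
    abel
  have hdB : B.det = A.det * (1 + Q).det := by
    rw [hB, det_mul, det_mul, hS', det_mul]; ring
  have hre : A.det = (A.det.re : ℂ) := by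
    have := (Complex.lt_def.1 hdA).2
    apply Complex.ext
    · simp
    · simpa using this.symm
  have hpos : 0 < A.det.re := (Complex.lt_def.1 hdA).1
  rw [hdB, hre, Complex.re_ofReal_mul, Complex.ofReal_re]
  have := det_one_add_ge hQp
  nlinarith

/-! ### Second derivatives -/

/-- second Frechet derivative. -/
noncomputable abbrev D2 {n : ℕ} (f : Cn n → ℝ) (z : Cn n) : Cn n →L[ℝ] Cn n →L[ℝ] ℝ :=
  fderiv ℝ (fderiv ℝ f) z

lemma cHess_eq {n : ℕ} {f : Cn n → ℝ} {z : Cn n} (hf : ContDiffAt ℝ 2 f z) (i j : Fin n) :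
    cHess f z i j = (1 / 4 : ℂ) * (((D2 f z (e i) (e j) + D2 f z (I • e i) (I • e j) : ℝ) : ℂ) +
      I * ((D2 f z (e i) (I • e j) - D2 f z (I • e i) (e j) : ℝ) : ℂ)) := by
  have h1 : ∀ᶠ w in 𝓝 z, DifferentiableAt ℝ f w :=
    (hf.eventually (by simp)).mono fun w hw => hw.differentiableAt (by simp)
  have h2 : DifferentiableAt ℝ (fderiv ℝ f) z :=
    (hf.fderiv_right (m := 1) (by norm_num)).differentiableAt (by simp)
  have h2' : HasFDerivAt (fderiv ℝ f) (D2 f z) z := h2.hasFDerivAt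
  have h3 : (dzbar j fun w => (f w : ℂ)) =ᶠ[𝓝 z] fun w =>
      (((fderiv ℝ f w (e j) : ℝ) : ℂ) + I * ((fderiv ℝ f w (I • e j) : ℝ) : ℂ)) / 2 := by
    filter_upwards [h1] with w hw
    have h4 : HasFDerivAt (fun w => (f w : ℂ)) (Complex.ofRealCLM.comp (fderiv ℝ f w)) w :=
      Complex.ofRealCLM.hasFDerivAt.comp w hw.hasFDerivAt
    simp [dzbar, h4.fderiv]
  have h5 : ∀ v : Cn n, HasFDerivAt (fun w => ((fderiv ℝ f w v : ℝ) : ℂ))
      (Complex.ofRealCLM.comp ((D2 f z).flip v)) z := by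
    intro v
    have := (h2'.clm_apply (hasFDerivAt_const v z))
    have h6 : HasFDerivAt (fun w => fderiv ℝ f w v) ((D2 f z).flip v) z := by
      convert! this using 1
      ext x
      simp
    exact Complex.ofRealCLM.hasFDerivAt.comp z h6
  have h7 : HasFDerivAt (fun w =>
      (((fderiv ℝ f w (e j) : ℝ) : ℂ) + I * ((fderiv ℝ f w (I • e j) : ℝ) : ℂ)) / 2)
      ((2⁻¹ : ℂ) • (Complex.ofRealCLM.comp ((D2 f z).flip (e j)) +
        I • Complex.ofRealCLM.comp ((D2 f z).flip (I • e j)))) z := by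
    have h8 := ((h5 (e j)).add ((h5 (I • e j)).const_mul I)).const_mul (2⁻¹ : ℂ)
    refine h8.congr_of_eventuallyEq (Eventually.of_forall fun w => ?_)
    simp only [Pi.add_apply]
    ring
  have h9 : HasFDerivAt (dzbar j fun w => (f w : ℂ)) _ z := h7.congr_of_eventuallyEq h3
  simp only [cHess, dz, h9.fderiv]
  simp
  ring_nf
  simp only [I_sq]
  ring

/-- The sesquilinear form attached to a real bilinear form. -/
noncomputable def SF {n : ℕ} (D : Cn n →L[ℝ] Cn n →L[ℝ] ℝ) (v w : Cn n) : ℂ :=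
  ((D v w + D (I • v) (I • w) : ℝ) : ℂ) + I * ((D v (I • w) - D (I • v) w : ℝ) : ℂ)

lemma SF_add_left {n : ℕ} (D : Cn n →L[ℝ] Cn n →L[ℝ] ℝ) (v v' w : Cn n) :
    SF D (v + v') w = SF D v w + SF D v' w := by
  simp only [SF, smul_add, map_add, _root_.add_apply]
  push_cast
  ring

lemma SF_add_right {n : ℕ} (D : Cn n →L[ℝ] Cn n →L[ℝ] ℝ) (v w w' : Cn n) :
    SF D v (w + w') = SF D v w + SF D v w' := by
  simp only [SF, smul_add, map_add]
  push_cast
  ring

lemma SF_I_left {n : ℕ} (D : Cn n →L[ℝ] Cn n →L[ℝ] ℝ) (v w : Cn n) :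
    SF D (I • v) w = I * SF D v w := by
  simp only [SF, smul_smul, I_mul_I, neg_smul, one_smul, map_neg, _root_.neg_apply]
  push_cast
  ring_nf
  simp only [I_sq]
  ring

lemma SF_I_right {n : ℕ} (D : Cn n →L[ℝ] Cn n →L[ℝ] ℝ) (v w : Cn n) :
    SF D v (I • w) = - I * SF D v w := by
  simp only [SF, smul_smul, I_mul_I, neg_smul, one_smul, map_neg]
  push_cast
  ring_nf
  simp only [I_sq]
  ring

lemma SF_real_left {n : ℕ} (D : Cn n →L[ℝ] Cn n →L[ℝ] ℝ) (r : ℝ) (v w : Cn n) :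
    SF D ((r : ℂ) • v) w = r * SF D v w := by
  have h : ∀ x : Cn n, ((r : ℂ) • x) = r • x := fun x => by ext i; simp
  simp only [SF]
  rw [smul_comm I (r : ℂ) v, h, h]
  simp only [map_smul, _root_.smul_apply, smul_eq_mul]
  push_cast
  ring

lemma SF_real_right {n : ℕ} (D : Cn n →L[ℝ] Cn n →L[ℝ] ℝ) (r : ℝ) (v w : Cn n) :
    SF D v ((r : ℂ) • w) = r * SF D v w := by
  have h : ∀ x : Cn n, ((r : ℂ) • x) = r • x := fun x => by ext i; simp
  simp only [SF]
  rw [smul_comm I (r : ℂ) w, h, h]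
  simp only [map_smul, smul_eq_mul]
  push_cast
  ring

lemma SF_smul_left {n : ℕ} (D : Cn n →L[ℝ] Cn n →L[ℝ] ℝ) (c : ℂ) (v w : Cn n) :
    SF D (c • v) w = c * SF D v w := by
  conv_lhs => rw [← Complex.re_add_im c]
  rw [add_smul, mul_comm, mul_smul, SF_add_left, SF_real_left, SF_I_left, SF_real_left]
  conv_rhs => rw [← Complex.re_add_im c]
  ring

lemma SF_smul_right {n : ℕ} (D : Cn n →L[ℝ] Cn n →L[ℝ] ℝ) (c : ℂ) (v w : Cn n) :
    SF D v (c • w) = (starRingEnd ℂ) c * SF D v w := by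
  conv_lhs => rw [← Complex.re_add_im c]
  rw [add_smul, mul_comm, mul_smul, SF_add_right, SF_real_right, SF_I_right, SF_real_right]
  have : (starRingEnd ℂ) c = c.re - c.im * I := by
    apply Complex.ext <;> simp
  rw [this]
  ring

/-- the vector with coordinates `conj (x i)`. -/
noncomputable def xi {n : ℕ} (x : Fin n → ℂ) : Cn n := WithLp.toLp 2 (star x)

lemma xi_eq_sum {n : ℕ} (x : Fin n → ℂ) : xi x = ∑ i, (starRingEnd ℂ) (x i) • e i := by
  ext j
  simp [xi, e, Finset.sum_apply, Pi.single_apply]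

lemma SF_sum {n : ℕ} (D : Cn n →L[ℝ] Cn n →L[ℝ] ℝ) (x : Fin n → ℂ) :
    SF D (xi x) (xi x) = ∑ i, ∑ j, (starRingEnd ℂ) (x i) * SF D (e i) (e j) * x j := by
  have hL : ∀ (s : Finset (Fin n)) (w : Cn n), SF D (∑ i ∈ s, (starRingEnd ℂ) (x i) • e i) w =
      ∑ i ∈ s, (starRingEnd ℂ) (x i) * SF D (e i) w := by
    intro s w
    induction s using Finset.induction_on with
    | empty => simp [SF]
    | insert a s ha ih => rw [Finset.sum_insert ha, Finset.sum_insert ha, SF_add_left, ih,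
        SF_smul_left]
  have hR : ∀ (s : Finset (Fin n)) (v : Cn n), SF D v (∑ j ∈ s, (starRingEnd ℂ) (x j) • e j) =
      ∑ j ∈ s, SF D v (e j) * x j := by
    intro s v
    induction s using Finset.induction_on with
    | empty => simp [SF]
    | insert a s ha ih => rw [Finset.sum_insert ha, Finset.sum_insert ha, SF_add_right, ih,
        SF_smul_right, Complex.conj_conj, mul_comm (x a)]
  rw [xi_eq_sum, hL]
  refine Finset.sum_congr rfl fun i _ => ?_
  rw [hR, Finset.mul_sum]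
  refine Finset.sum_congr rfl fun j _ => ?_
  ring

lemma D2_symm {n : ℕ} {f : Cn n → ℝ} {z : Cn n} (hf : ContDiffAt ℝ 2 f z) (v w : Cn n) :
    D2 f z v w = D2 f z w v :=
  (hf.isSymmSndFDerivAt (by simp)).eq v w

/-- The quadratic form of the complex Hessian. -/
lemma cHess_quad {n : ℕ} {f : Cn n → ℝ} {z : Cn n} (hf : ContDiffAt ℝ 2 f z) (x : Fin n → ℂ) :
    star x ⬝ᵥ (cHess f z *ᵥ x) =
      (((D2 f z (xi x) (xi x) + D2 f z (I • xi x) (I • xi x)) / 4 : ℝ) : ℂ) := by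
  have h1 : SF (D2 f z) (xi x) (xi x) =
      ((D2 f z (xi x) (xi x) + D2 f z (I • xi x) (I • xi x) : ℝ) : ℂ) := by
    rw [SF, D2_symm hf (xi x) (I • xi x)]
    simp
  have h2 : ∀ i j, cHess f z i j = (1 / 4 : ℂ) * SF (D2 f z) (e i) (e j) := fun i j =>
    cHess_eq hf i j
  have h3 : star x ⬝ᵥ (cHess f z *ᵥ x) = (1 / 4 : ℂ) * SF (D2 f z) (xi x) (xi x) := by
    rw [SF_sum]
    simp only [dotProduct, mulVec, Finset.mul_sum, h2, Pi.star_apply, RCLike.star_def]
    refine Finset.sum_congr rfl fun i _ => Finset.sum_congr rfl fun j _ => ?_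
    ring
  rw [h3, h1]
  push_cast
  ring

lemma cHess_isHermitian {n : ℕ} {f : Cn n → ℝ} {z : Cn n} (hf : ContDiffAt ℝ 2 f z) :
    (cHess f z).IsHermitian := by
  ext i j
  rw [Matrix.conjTranspose_apply, cHess_eq hf, cHess_eq hf, D2_symm hf (e j) (e i),
    D2_symm hf (I • e j) (I • e i), D2_symm hf (e j) (I • e i), D2_symm hf (I • e j) (e i)]
  simp only [RCLike.star_def, map_mul, map_add, Complex.conj_ofReal, Complex.conj_I, map_div₀,
    map_one, map_ofNat]
  push_cast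
  ring


lemma hasDerivAt_line {n : ℕ} {f : Cn n → ℝ} {z : Cn n} (hf : ContDiffAt ℝ 2 f z) (v : Cn n) :
    HasDerivAt (deriv fun x : ℝ => f (z + x • v)) (D2 f z v v) 0 := by
  have h1 : ∀ᶠ w in 𝓝 z, DifferentiableAt ℝ f w :=
    (hf.eventually (by simp)).mono fun w hw => hw.differentiableAt (by simp)
  have h2 : DifferentiableAt ℝ (fderiv ℝ f) z :=
    (hf.fderiv_right (m := 1) (by norm_num)).differentiableAt (by simp)
  have hline : ∀ x : ℝ, HasDerivAt (fun x : ℝ => z + x • v) v x := by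
    intro x
    simpa using ((hasDerivAt_id x).smul_const v).const_add z
  have hcont : Tendsto (fun x : ℝ => z + x • v) (𝓝 0) (𝓝 z) := by
    have : ContinuousAt (fun x : ℝ => z + x • v) 0 := (hline 0).continuousAt
    simpa [ContinuousAt] using this
  have h3 : (deriv fun x : ℝ => f (z + x • v)) =ᶠ[𝓝 0] fun x => fderiv ℝ f (z + x • v) v := by
    filter_upwards [hcont.eventually h1] with x hx
    exact (hx.hasFDerivAt.comp_hasDerivAt x (hline x)).deriv
  have h4 : HasDerivAt (fun x : ℝ => fderiv ℝ f (z + x • v)) (D2 f z v) 0 := by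
    have h5 : HasFDerivAt (fderiv ℝ f) (D2 f z) (z + (0 : ℝ) • v) := by
      simpa using h2.hasFDerivAt
    exact h5.comp_hasDerivAt 0 (hline 0)
  have h6 : HasDerivAt (fun x : ℝ => fderiv ℝ f (z + x • v) v) (D2 f z v v) 0 := by
    have := h4.clm_apply (hasDerivAt_const (0:ℝ) v)
    simpa using this
  exact h6.congr_of_eventuallyEq h3

lemma second_deriv_nonpos {h : ℝ → ℝ} (hmax : IsLocalMax h 0) {c : ℝ}
    (hc : HasDerivAt (deriv h) c 0) (hcont : ContinuousAt h 0) : c ≤ 0 := by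
  by_contra hcon
  push Not at hcon
  have h0 : deriv h 0 = 0 := hmax.deriv_eq_zero
  have hmin : IsLocalMin h 0 := isLocalMin_of_deriv_deriv_pos (by rw [hc.deriv]; exact hcon) h0 hcont
  have heq : h =ᶠ[𝓝 0] fun _ => h 0 := by
    filter_upwards [hmax, hmin] with x h1 h2 using le_antisymm h1 h2
  have h1 : deriv h =ᶠ[𝓝 0] fun _ => (0 : ℝ) := by
    filter_upwards [heq.eventuallyEq_nhds] with x hx
    rw [hx.deriv_eq]
    simp
  have h2 : deriv (deriv h) 0 = 0 := by
    rw [h1.deriv_eq]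
    simp
  rw [hc.deriv] at h2
  exact hcon.ne' h2

lemma D2_le_of_isLocalMax_sub {n : ℕ} {u w : Cn n → ℝ} {z : Cn n} (hu : ContDiffAt ℝ 2 u z)
    (hw : ContDiffAt ℝ 2 w z) (hmax : IsLocalMax (fun y => u y - w y) z) (v : Cn n) :
    D2 u z v v ≤ D2 w z v v := by
  have hline : ∀ x : ℝ, HasDerivAt (fun x : ℝ => z + x • v) v x := by
    intro x
    simpa using ((hasDerivAt_id x).smul_const v).const_add z
  have hcont : Tendsto (fun x : ℝ => z + x • v) (𝓝 0) (𝓝 z) := by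
    have : ContinuousAt (fun x : ℝ => z + x • v) 0 := (hline 0).continuousAt
    simpa [ContinuousAt] using this
  have hdu : ∀ᶠ x in 𝓝 (0 : ℝ), DifferentiableAt ℝ (fun x : ℝ => u (z + x • v)) x := by
    have h1 : ∀ᶠ w in 𝓝 z, DifferentiableAt ℝ u w :=
      (hu.eventually (by simp)).mono fun w hw => hw.differentiableAt (by simp)
    filter_upwards [hcont.eventually h1] with x hx
    exact (hx.hasFDerivAt.comp_hasDerivAt x (hline x)).differentiableAt
  have hdw : ∀ᶠ x in 𝓝 (0 : ℝ), DifferentiableAt ℝ (fun x : ℝ => w (z + x • v)) x := by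
    have h1 : ∀ᶠ y in 𝓝 z, DifferentiableAt ℝ w y :=
      (hw.eventually (by simp)).mono fun w hw => hw.differentiableAt (by simp)
    filter_upwards [hcont.eventually h1] with x hx
    exact (hx.hasFDerivAt.comp_hasDerivAt x (hline x)).differentiableAt
  have hd : (deriv fun x : ℝ => u (z + x • v) - w (z + x • v)) =ᶠ[𝓝 0]
      fun x => deriv (fun x : ℝ => u (z + x • v)) x - deriv (fun x : ℝ => w (z + x • v)) x := by
    filter_upwards [hdu, hdw] with x h1 h2
    exact deriv_fun_sub h1 h2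
  have h1 : HasDerivAt (deriv fun x : ℝ => u (z + x • v) - w (z + x • v))
      (D2 u z v v - D2 w z v v) 0 :=
    ((hasDerivAt_line hu v).sub (hasDerivAt_line hw v)).congr_of_eventuallyEq hd
  have h2 : IsLocalMax (fun x : ℝ => u (z + x • v) - w (z + x • v)) 0 := by
    have : ∀ᶠ x in 𝓝 (0 : ℝ), u (z + x • v) - w (z + x • v) ≤ u z - w z :=
      hcont.eventually hmax
    simpa [IsLocalMax, IsMaxFilter] using this
  have h3 : ContinuousAt (fun x : ℝ => u (z + x • v) - w (z + x • v)) 0 :=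
    (hdu.self_of_nhds.sub hdw.self_of_nhds).continuousAt
  have := second_deriv_nonpos h2 h1 h3
  linarith


lemma norm_line_sq {n : ℕ} (p v : Cn n) (x : ℝ) :
    ‖p + x • v‖ ^ 2 = ‖p‖ ^ 2 + 2 * (inner ℂ p v).re * x + ‖v‖ ^ 2 * x ^ 2 := by
  have h : x • v = (x : ℂ) • v := by ext i; simp
  rw [h, @norm_add_sq ℂ, inner_smul_right, norm_smul]
  simp only [RCLike.re_to_complex, Complex.re_ofReal_mul, Complex.norm_real, mul_pow,
    Real.norm_eq_abs, sq_abs]
  ring

lemma D2_eq_of_line {n : ℕ} {f : Cn n → ℝ} {z : Cn n} (hf : ContDiffAt ℝ 2 f z) (v : Cn n)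
    {g g' : ℝ → ℝ} {g'' : ℝ} (h : ∀ x, f (z + x • v) = g x)
    (h1 : ∀ᶠ x in 𝓝 0, HasDerivAt g (g' x) x) (h2 : HasDerivAt g' g'' 0) :
    D2 f z v v = g'' := by
  have h3 := hasDerivAt_line hf v
  have h4 : (fun x : ℝ => f (z + x • v)) = g := funext h
  rw [h4] at h3
  have h5 : deriv g =ᶠ[𝓝 0] g' := by
    filter_upwards [h1] with x hx using hx.deriv
  exact (h2.congr_of_eventuallyEq h5).unique h3 |>.symm

/-- `D²(c‖·‖² + d)(v,v) = 2c‖v‖²`. -/
lemma D2_normSq {n : ℕ} (z v : Cn n) (c d : ℝ) :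
    D2 (fun y : Cn n => c * ‖y‖ ^ 2 + d) z v v = 2 * c * ‖v‖ ^ 2 := by
  have hf : ContDiffAt ℝ 2 (fun y : Cn n => c * ‖y‖ ^ 2 + d) z :=
    (contDiffAt_const.mul (contDiff_norm_sq ℝ).contDiffAt).add contDiffAt_const
  refine D2_eq_of_line hf v
    (g := fun x => c * (‖z‖ ^ 2 + 2 * (inner ℂ z v).re * x + ‖v‖ ^ 2 * x ^ 2) + d)
    (g' := fun x => c * (2 * (inner ℂ z v).re + 2 * ‖v‖ ^ 2 * x)) (fun x => ?_) ?_ ?_
  · simp only [norm_line_sq]
  · refine Eventually.of_forall fun x => ?_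
    have h1 : HasDerivAt (fun x : ℝ => 2 * (inner ℂ z v).re * x) (2 * (inner ℂ z v).re) x := by
      simpa using (hasDerivAt_id x).const_mul (2 * (inner ℂ z v).re)
    have h2 : HasDerivAt (fun x : ℝ => ‖v‖ ^ 2 * x ^ 2) (2 * ‖v‖ ^ 2 * x) x := by
      have := (hasDerivAt_pow 2 x).const_mul (‖v‖ ^ 2)
      convert! this using 1
      simp; ring
    have h3 := (((h1.const_add (‖z‖ ^ 2)).add h2).const_mul c).add_const d
    exact h3
  · have h2 : HasDerivAt (fun x : ℝ => 2 * ‖v‖ ^ 2 * x) (2 * ‖v‖ ^ 2) 0 := by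
      simpa using (hasDerivAt_id (0:ℝ)).const_mul (2 * ‖v‖ ^ 2)
    have h3 := (h2.const_add (2 * (inner ℂ z v).re)).const_mul c
    convert! h3 using 1
    ring

/-- The barrier in space: `c log(‖z - a‖² + δ) + d`. -/
lemma contDiff_barrier {n : ℕ} (a : Cn n) (c d : ℝ) {δ : ℝ} (hδ : 0 < δ) :
    ContDiff ℝ ∞ (fun y : Cn n => c * Real.log (‖y - a‖ ^ 2 + δ) + d) := by
  refine (contDiff_const.mul (ContDiff.log ?_ fun y => ?_)).add contDiff_const
  · exact ((contDiff_norm_sq ℝ).comp (contDiff_id.sub contDiff_const)).add contDiff_const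
  · positivity

lemma D2_barrier {n : ℕ} (a z v : Cn n) (c d : ℝ) {δ : ℝ} (hδ : 0 < δ) :
    D2 (fun y : Cn n => c * Real.log (‖y - a‖ ^ 2 + δ) + d) z v v =
      c * (2 * ‖v‖ ^ 2 / (‖z - a‖ ^ 2 + δ) -
        (2 * (inner ℂ (z - a) v).re) ^ 2 / (‖z - a‖ ^ 2 + δ) ^ 2) := by
  have hf : ContDiffAt ℝ 2 (fun y : Cn n => c * Real.log (‖y - a‖ ^ 2 + δ) + d) z :=
    (contDiff_infty.1 (contDiff_barrier a c d hδ) 2).contDiffAt
  set β := (inner ℂ (z - a) v).re with hβ
  set q := ‖z - a‖ ^ 2 + δ with hq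
  have hqpos : 0 < q := by positivity
  have hQ : ∀ x : ℝ, ‖z + x • v - a‖ ^ 2 + δ = q + 2 * β * x + ‖v‖ ^ 2 * x ^ 2 := by
    intro x
    have : z + x • v - a = (z - a) + x • v := by abel
    rw [this, norm_line_sq]
    ring
  have hpos : ∀ x : ℝ, 0 < q + 2 * β * x + ‖v‖ ^ 2 * x ^ 2 := by
    intro x
    rw [← hQ]; positivity
  have hder : ∀ x : ℝ, HasDerivAt (fun x : ℝ => q + 2 * β * x + ‖v‖ ^ 2 * x ^ 2)
      (2 * β + 2 * ‖v‖ ^ 2 * x) x := by
    intro x
    have h1 : HasDerivAt (fun x : ℝ => 2 * β * x) (2 * β) x := by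
      simpa using (hasDerivAt_id x).const_mul (2 * β)
    have h2 : HasDerivAt (fun x : ℝ => ‖v‖ ^ 2 * x ^ 2) (2 * ‖v‖ ^ 2 * x) x := by
      have := (hasDerivAt_pow 2 x).const_mul (‖v‖ ^ 2)
      convert! this using 1
      simp; ring
    exact (h1.const_add q).add h2
  refine D2_eq_of_line hf v
    (g := fun x => c * Real.log (q + 2 * β * x + ‖v‖ ^ 2 * x ^ 2) + d)
    (g' := fun x => c * ((2 * β + 2 * ‖v‖ ^ 2 * x) / (q + 2 * β * x + ‖v‖ ^ 2 * x ^ 2)))
    (fun x => ?_) ?_ ?_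
  · simp only [hQ]
  · refine Eventually.of_forall fun x => ?_
    exact (((hder x).log (hpos x).ne').const_mul c).add_const d
  · have h2 : HasDerivAt (fun x : ℝ => 2 * β + 2 * ‖v‖ ^ 2 * x) (2 * ‖v‖ ^ 2) 0 := by
      simpa using ((hasDerivAt_id (0:ℝ)).const_mul (2 * ‖v‖ ^ 2)).const_add (2 * β)
    have h3 := (h2.div (hder 0) (hpos 0).ne').const_mul c
    convert! h3 using 1
    simp only [mul_zero, add_zero, ne_eq, OfNat.ofNat_ne_zero, not_false_eq_true, zero_pow]
    congr 1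
    field_simp

/-- `|⟨p,ξ⟩|²` from the real parts. -/
lemma inner_re_sq {n : ℕ} (p v : Cn n) :
    (inner ℂ p v).re ^ 2 + (inner ℂ p (I • v)).re ^ 2 = ‖inner ℂ p v‖ ^ 2 := by
  rw [inner_smul_right, ← Complex.normSq_eq_norm_sq, Complex.normSq_apply]
  simp
  ring


lemma norm_xi_sq {n : ℕ} (x : Fin n → ℂ) : star x ⬝ᵥ x = ((‖xi x‖ ^ 2 : ℝ) : ℂ) := by
  rw [EuclideanSpace.norm_sq_eq]
  simp only [dotProduct, xi, Pi.star_apply, RCLike.star_def, RCLike.norm_conj]
  push_cast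
  refine Finset.sum_congr rfl fun i _ => ?_
  rw [mul_comm, Complex.mul_conj, Complex.normSq_eq_norm_sq]
  push_cast
  rfl

lemma inner_xi {n : ℕ} (p : Cn n) (x : Fin n → ℂ) :
    (inner ℂ p (xi x)) = (starRingEnd ℂ) (p.ofLp ⬝ᵥ x) := by
  rw [EuclideanSpace.inner_eq_star_dotProduct]
  simp only [xi, dotProduct, Pi.star_apply, RCLike.star_def, map_sum, map_mul]
  refine Finset.sum_congr rfl fun i _ => ?_
  ring


lemma norm_xi_ofLp_sq {n : ℕ} (p : Cn n) : ‖xi p.ofLp‖ ^ 2 = ‖p‖ ^ 2 := by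
  rw [EuclideanSpace.norm_sq_eq, EuclideanSpace.norm_sq_eq]
  simp [xi]

lemma rankOne_mulVec {n : ℕ} (u v x : Fin n → ℂ) :
    (replicateCol Unit u * replicateRow Unit v) *ᵥ x = (v ⬝ᵥ x) • u := by
  ext i
  simp only [mulVec, dotProduct, Matrix.mul_apply, replicateCol_apply, replicateRow_apply,
    Finset.univ_unique, Finset.sum_singleton, Pi.smul_apply, smul_eq_mul, Finset.sum_mul]
  refine Finset.sum_congr rfl fun j _ => ?_
  ring

lemma posSemidef_of_real_quad {n : ℕ} {M : Matrix (Fin n) (Fin n) ℂ} (hM : M.IsHermitian)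
    (q : (Fin n → ℂ) → ℝ) (hq : ∀ x, star x ⬝ᵥ (M *ᵥ x) = (q x : ℂ)) (h0 : ∀ x, 0 ≤ q x) :
    M.PosSemidef := by
  refine PosSemidef.of_dotProduct_mulVec_nonneg hM fun x => ?_
  rw [hq]
  exact_mod_cast h0 x

/-- Upper bound of the determinant at a contact point with the barrier. -/
lemma det_le_barrier {n : ℕ} {u : Cn n → ℝ} {a z : Cn n} {c d δ : ℝ} (hδ : 0 < δ)
    (hu : ContDiffAt ℝ 2 u z) (hpos : (cHess u z).PosDef)
    (hD : ∀ v, D2 u z v v ≤ D2 (fun y : Cn n => c * Real.log (‖y - a‖ ^ 2 + δ) + d) z v v) :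
    (cHess u z).det.re ≤ (c / (‖z - a‖ ^ 2 + δ)) ^ n * (δ / (‖z - a‖ ^ 2 + δ)) := by
  set q := ‖z - a‖ ^ 2 + δ with hq
  have hqpos : 0 < q := by positivity
  set p := (z - a).ofLp with hp
  set B : Matrix (Fin n) (Fin n) ℂ := ((c / q : ℝ) : ℂ) • (1 + replicateCol Unit (star p) *
    replicateRow Unit (((-1 / q : ℝ) : ℂ) • p)) with hB
  have hpp : star p ⬝ᵥ p = ((‖z - a‖ ^ 2 : ℝ) : ℂ) := by
    rw [norm_xi_sq, norm_xi_ofLp_sq]
  have hdetB : B.det.re = (c / q) ^ n * (δ / q) := by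
    rw [hB, Matrix.det_smul, det_one_add_replicateCol_mul_replicateRow, Fintype.card_fin,
      smul_dotProduct, dotProduct_comm, hpp, smul_eq_mul]
    have h1 : δ / q = 1 + -1 / q * ‖z - a‖ ^ 2 := by
      field_simp
      rw [hq]; ring
    rw [h1]
    norm_cast
  have hquad : ∀ x : Fin n → ℂ, star x ⬝ᵥ (B *ᵥ x) =
      ((c / q * (‖xi x‖ ^ 2 - ‖inner ℂ (z - a) (xi x)‖ ^ 2 / q) : ℝ) : ℂ) := by
    intro x
    have h1 : (p ⬝ᵥ x) * (star x ⬝ᵥ star p) = ((‖inner ℂ (z - a) (xi x)‖ ^ 2 : ℝ) : ℂ) := by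
      rw [inner_xi, RCLike.norm_conj, ← Complex.normSq_eq_norm_sq, ← Complex.mul_conj, ← hp]
      congr 1
      simp only [dotProduct, Pi.star_apply, RCLike.star_def, map_sum, map_mul]
      refine Finset.sum_congr rfl fun i _ => ?_
      ring
    rw [hB, smul_mulVec, dotProduct_smul, add_mulVec, one_mulVec, dotProduct_add,
      rankOne_mulVec, dotProduct_smul, smul_dotProduct, norm_xi_sq, smul_eq_mul, smul_eq_mul,
      smul_eq_mul, mul_assoc, h1]
    push_cast
    ring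
  have hBH : B.IsHermitian := by
    ext i j
    simp only [hB, Matrix.conjTranspose_apply, Matrix.smul_apply, Matrix.add_apply,
      Matrix.mul_apply, replicateCol_apply, replicateRow_apply, Finset.univ_unique,
      Finset.sum_singleton, Pi.star_apply, Pi.smul_apply, smul_eq_mul, RCLike.star_def,
      map_mul, map_add, Complex.conj_ofReal, Complex.conj_conj]
    rw [Matrix.one_apply, Matrix.one_apply]
    by_cases hij : i = j
    · subst hij; simp; ring_nf; simp
    · simp [hij, Ne.symm hij]; ring_nf; simp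
  have hsub : (B - cHess u z).PosSemidef := by
    refine posSemidef_of_real_quad (hBH.sub (cHess_isHermitian hu))
      (fun x => (c / q * (‖xi x‖ ^ 2 - ‖inner ℂ (z - a) (xi x)‖ ^ 2 / q)) -
        (D2 u z (xi x) (xi x) + D2 u z (I • xi x) (I • xi x)) / 4) (fun x => ?_) (fun x => ?_)
    · rw [sub_mulVec, dotProduct_sub, hquad, cHess_quad hu]
      push_cast
      ring
    · have h1 := hD (xi x)
      have h2 := hD (I • xi x)
      rw [D2_barrier a z _ c d hδ] at h1 h2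
      have h3 := inner_re_sq (z - a) (xi x)
      have h4 : ‖I • xi x‖ = ‖xi x‖ := by rw [norm_smul, Complex.norm_I, one_mul]
      rw [h4] at h2
      have h5 : c / q * (‖xi x‖ ^ 2 - ‖inner ℂ (z - a) (xi x)‖ ^ 2 / q) =
          (c * (2 * ‖xi x‖ ^ 2 / q - (2 * (inner ℂ (z - a) (xi x)).re) ^ 2 / q ^ 2) +
          c * (2 * ‖xi x‖ ^ 2 / q - (2 * (inner ℂ (z - a) (I • xi x)).re) ^ 2 / q ^ 2)) / 4 := by
        rw [← h3]
        field_simp
        ring
      rw [h5]
      linarith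
  rw [← hdetB]
  exact det_le_det hpos hsub

/-- Lower bound of the determinant at a contact point with `f + ε‖·‖²`, `f` plurisubharmonic. -/
lemma det_ge_pow {n : ℕ} {f u : Cn n → ℝ} {z : Cn n} {ε : ℝ} (hε : 0 < ε)
    (hf : ContDiffAt ℝ 2 f z) (hfpos : (cHess f z).PosDef) (hu : ContDiffAt ℝ 2 u z)
    (hD : ∀ v, D2 f z v v + 2 * ε * ‖v‖ ^ 2 ≤ D2 u z v v) :
    ε ^ n ≤ (cHess u z).det.re := by
  have hA : (((ε : ℝ) : ℂ) • (1 : Matrix (Fin n) (Fin n) ℂ)).PosDef := by
    have : (0 : ℂ) < (ε : ℂ) := by exact_mod_cast hε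
    exact (Matrix.PosDef.one).smul this
  have hdetA : (((ε : ℝ) : ℂ) • (1 : Matrix (Fin n) (Fin n) ℂ)).det.re = ε ^ n := by
    rw [Matrix.det_smul, Fintype.card_fin, det_one, mul_one]
    norm_cast
  rw [← hdetA]
  refine det_le_det hA ?_
  refine posSemidef_of_real_quad ((cHess_isHermitian hu).sub hA.1)
      (fun x => (D2 u z (xi x) (xi x) + D2 u z (I • xi x) (I • xi x)) / 4 - ε * ‖xi x‖ ^ 2)
      (fun x => ?_) (fun x => ?_)
  · rw [sub_mulVec, dotProduct_sub, cHess_quad hu, smul_mulVec, one_mulVec, dotProduct_smul,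
      norm_xi_sq, smul_eq_mul]
    push_cast
    ring
  · have h1 := hD (xi x)
    have h2 := hD (I • xi x)
    have h4 : ‖I • xi x‖ = ‖xi x‖ := by rw [norm_smul, Complex.norm_I, one_mul]
    rw [h4] at h2
    have h5 := hfpos.posSemidef.dotProduct_mulVec_nonneg x
    rw [cHess_quad hf] at h5
    have h6 : 0 ≤ (D2 f z (xi x) (xi x) + D2 f z (I • xi x) (I • xi x)) / 4 := by
      exact_mod_cast h5
    linarith

/-- A function with a positive definite complex Hessian has no interior maximum. -/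
lemma not_isLocalMax {n : ℕ} (hn : 1 ≤ n) {u : Cn n → ℝ} {z : Cn n} (hu : ContDiffAt ℝ 2 u z)
    (hpos : (cHess u z).PosDef) : ¬ IsLocalMax u z := by
  intro hmax
  have hD : ∀ v, D2 u z v v ≤ 0 := by
    intro v
    have h1 := D2_le_of_isLocalMax_sub (u := u) (w := fun y : Cn n => (0:ℝ) * ‖y‖ ^ 2 + 0) (z := z)
      hu (by simpa using contDiffAt_const) (by simpa using hmax) v
    rw [D2_normSq] at h1
    simpa using h1
  have hx : (fun _ : Fin n => (1 : ℂ)) ≠ 0 := by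
    intro h
    have := congrFun h ⟨0, hn⟩
    simp at this
  have h1 := hpos.dotProduct_mulVec_pos hx
  rw [cHess_quad hu] at h1
  have h2 : 0 < (D2 u z (xi fun _ => 1) (xi fun _ => 1) +
      D2 u z (I • xi fun _ => 1) (I • xi fun _ => 1)) / 4 := by exact_mod_cast h1
  have h3 := hD (xi fun _ => 1)
  have h4 := hD (I • xi fun _ => 1)
  linarith

/-- Parabolic maximum principle, abstract form. -/
lemma parabolic_max {n : ℕ} {Ω : Set (Cn n)} (hb : Bornology.IsBounded Ω) {τ t₁ : ℝ}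
    {g : Cn n → ℝ → ℝ}
    (hg : ContinuousOn (fun p : Cn n × ℝ => g p.1 p.2) (closure Ω ×ˢ Icc τ t₁))
    (hinit : ∀ z ∈ closure Ω, g z τ ≤ 0)
    (hbdry : ∀ z ∈ frontier Ω, ∀ t ∈ Icc τ t₁, g z t ≤ 0)
    (hint : ∀ z ∈ interior Ω, ∀ t ∈ Ioc τ t₁, (∀ z' ∈ closure Ω, g z' t ≤ g z t) →
      (∀ t' ∈ Icc τ t, g z t' ≤ g z t) → 0 < g z t → False) :
    ∀ z ∈ closure Ω, ∀ t ∈ Icc τ t₁, g z t ≤ 0 := by
  intro z hz t ht
  by_contra hcon
  push Not at hcon
  have hK : IsCompact (closure Ω ×ˢ Icc τ t₁) := hb.isCompact_closure.prod isCompact_Icc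
  obtain ⟨⟨z₀, t₀⟩, hmem, hmax⟩ := hK.exists_isMaxOn ⟨(z, t), hz, ht⟩ hg
  have hz₀ : z₀ ∈ closure Ω := hmem.1
  have ht₀ : t₀ ∈ Icc τ t₁ := hmem.2
  have hpos : 0 < g z₀ t₀ := lt_of_lt_of_le hcon (hmax (show (z, t) ∈ _ from ⟨hz, ht⟩))
  have ht₀' : τ < t₀ := by
    rcases eq_or_lt_of_le ht₀.1 with h | h
    · exact absurd (hinit z₀ hz₀) (by rw [h]; exact not_le.2 hpos)
    · exact h
  have hz₀' : z₀ ∈ interior Ω := by
    by_contra h
    exact absurd (hbdry z₀ ⟨hz₀, h⟩ t₀ ht₀) (not_le.2 hpos)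
  refine hint z₀ hz₀' t₀ ⟨ht₀', ht₀.2⟩ (fun z' hz' => ?_) (fun t' ht' => ?_) hpos
  · exact hmax (show (z', t₀) ∈ _ from ⟨hz', ht₀⟩)
  · exact hmax (show (z₀, t') ∈ _ from ⟨hz₀, ht'.1, ht'.2.trans ht₀.2⟩)

/-- At a maximum from the left the derivative is nonnegative. -/
lemma deriv_nonneg_of_left_max {h : ℝ → ℝ} {h' τ t : ℝ} (hτ : τ < t) (hd : HasDerivAt h h' t)
    (hmax : ∀ s ∈ Icc τ t, h s ≤ h t) : 0 ≤ h' := by
  have h1 := hd.tendsto_slope_zero_left
  refine ge_of_tendsto h1 ?_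
  have h2 : ∀ᶠ s in 𝓝[<] (0 : ℝ), τ - t < s := by
    apply mem_nhdsWithin_of_mem_nhds
    exact Ioi_mem_nhds (by linarith)
  filter_upwards [h2, self_mem_nhdsWithin] with s hs hs0
  have hs0' : s < 0 := hs0
  have h3 : h (t + s) ≤ h t := hmax _ ⟨by linarith, by linarith⟩
  rw [smul_eq_mul]
  exact mul_nonneg_of_nonpos_of_nonpos (inv_nonpos.2 hs0'.le) (by linarith)

/-! ### Properties of solutions -/

lemma D2_add {n : ℕ} {f g : Cn n → ℝ} {z : Cn n} (hf : ContDiffAt ℝ 2 f z)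
    (hg : ContDiffAt ℝ 2 g z) (v : Cn n) :
    D2 (fun y => f y + g y) z v v = D2 f z v v + D2 g z v v := by
  have h1 : ∀ᶠ w in 𝓝 z, DifferentiableAt ℝ f w :=
    (hf.eventually (by simp)).mono fun w hw => hw.differentiableAt (by simp)
  have h1' : ∀ᶠ w in 𝓝 z, DifferentiableAt ℝ g w :=
    (hg.eventually (by simp)).mono fun w hw => hw.differentiableAt (by simp)
  have h2 : DifferentiableAt ℝ (fderiv ℝ f) z :=
    (hf.fderiv_right (m := 1) (by norm_num)).differentiableAt (by simp)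
  have h2' : DifferentiableAt ℝ (fderiv ℝ g) z :=
    (hg.fderiv_right (m := 1) (by norm_num)).differentiableAt (by simp)
  have h3 : (fderiv ℝ fun y => f y + g y) =ᶠ[𝓝 z] fun y => fderiv ℝ f y + fderiv ℝ g y := by
    filter_upwards [h1, h1'] with y hy hy'
    exact fderiv_fun_add hy hy'
  rw [D2, h3.fderiv_eq, fderiv_fun_add h2 h2']
  simp [D2]

section Solution

variable {n : ℕ} {Ω : Set (Cn n)} {T : ℝ} {u₀ : Cn n → EReal} {φ u : Cn n → ℝ → ℝ}

lemma IsSolution.continuousOn (hu : IsSolution Ω T u₀ φ u) :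
    ContinuousOn (fun p : Cn n × ℝ => u p.1 p.2) (closure Ω ×ˢ Ioo 0 T) := hu.smooth.continuousOn

lemma IsSolution.contDiffAt (hu : IsSolution Ω T u₀ φ u) (hΩ : IsOpen Ω) {z : Cn n} (hz : z ∈ Ω)
    {t : ℝ} (ht : t ∈ Ioo 0 T) : ContDiffAt ℝ ∞ (fun p : Cn n × ℝ => u p.1 p.2) (z, t) := by
  refine hu.smooth.contDiffAt ?_
  refine Filter.mem_of_superset (prod_mem_nhds (hΩ.mem_nhds hz) (isOpen_Ioo.mem_nhds ht)) ?_
  exact Set.prod_mono subset_closure le_rfl

lemma IsSolution.contDiffAt_space (hu : IsSolution Ω T u₀ φ u) (hΩ : IsOpen Ω) {z : Cn n}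
    (hz : z ∈ Ω) {t : ℝ} (ht : t ∈ Ioo 0 T) : ContDiffAt ℝ 2 (fun w => u w t) z := by
  have h1 : ContDiffAt ℝ 2 (fun p : Cn n × ℝ => u p.1 p.2) (z, t) :=
    (contDiffAt_infty.1 (hu.contDiffAt hΩ hz ht)) 2
  have h2 : ContDiffAt ℝ 2 (fun w : Cn n => (w, t)) z := contDiffAt_id.prodMk contDiffAt_const
  exact h1.comp z h2

lemma IsSolution.hasDerivAt_time (hu : IsSolution Ω T u₀ φ u) (hΩ : IsOpen Ω) {z : Cn n}
    (hz : z ∈ Ω) {t : ℝ} (ht : t ∈ Ioo 0 T) :
    HasDerivAt (fun s => u z s) (Real.log (cHess (fun w => u w t) z).det.re) t := by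
  have h1 : DifferentiableAt ℝ (fun p : Cn n × ℝ => u p.1 p.2) (z, t) :=
    (hu.contDiffAt hΩ hz ht).differentiableAt (by simp)
  have h2 : DifferentiableAt ℝ (fun s : ℝ => ((z, s) : Cn n × ℝ)) t := by fun_prop
  have h3 : DifferentiableAt ℝ (fun s => u z s) t := h1.comp t h2
  rw [← hu.flow t ht z hz]
  exact h3.hasDerivAt

lemma IsSolution.boundary_const (hφ : IsData Ω T u₀ φ) (hu : IsSolution Ω T u₀ φ u) {z : Cn n}
    (hz : z ∈ frontier Ω) {t : ℝ} (ht : t ∈ Ioo 0 T) : ((u z t : ℝ) : EReal) = u₀ z := by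
  rw [hu.boundary z hz t ht]
  exact hφ.compat z hz t ⟨ht.1.le, ht.2⟩

/-- Almost monotonicity in time. -/
lemma IsSolution.almost_mono (hφ : IsData Ω T u₀ φ) (hu : IsSolution Ω T u₀ φ u)
    (hΩ : IsOpen Ω) (hb : Bornology.IsBounded Ω) {R : ℝ} (hR : ∀ z ∈ closure Ω, ‖z‖ ≤ R)
    {ε κ : ℝ} (hε : 0 < ε) (hκ0 : 0 ≤ κ) (hκ : -(n * Real.log ε) < κ) {τ s : ℝ} (hτ : 0 < τ)
    (hτs : τ ≤ s) (hs : s < T) :
    ∀ z ∈ closure Ω, u z τ ≤ u z s + ε * R ^ 2 + κ * (s - τ) := by
  have hτT : τ ∈ Ioo 0 T := ⟨hτ, lt_of_le_of_lt hτs hs⟩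
  have hIcc : ∀ t ∈ Icc τ s, t ∈ Ioo 0 T := fun t ht =>
    ⟨lt_of_lt_of_le hτ ht.1, lt_of_le_of_lt ht.2 hs⟩
  have key := parabolic_max (Ω := Ω) hb (τ := τ) (t₁ := s)
    (g := fun z t => u z τ + (ε * ‖z‖ ^ 2 + (- (ε * R ^ 2))) - u z t - κ * (t - τ)) ?_ ?_ ?_ ?_
  · intro z hz
    have h1 := key z hz s ⟨hτs, le_rfl⟩
    have h2 : 0 ≤ ε * ‖z‖ ^ 2 := by positivity
    linarith
  · have h1 : ContinuousOn (fun p : Cn n × ℝ => u p.1 p.2) (closure Ω ×ˢ Icc τ s) :=
      hu.continuousOn.mono (Set.prod_mono le_rfl hIcc)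
    have h2 : ContinuousOn (fun p : Cn n × ℝ => u p.1 τ) (closure Ω ×ˢ Icc τ s) := by
      have : ContinuousOn (fun p : Cn n × ℝ => ((p.1, τ) : Cn n × ℝ)) (closure Ω ×ˢ Icc τ s) := by
        fun_prop
      exact hu.continuousOn.comp this fun p hp => ⟨hp.1, hτT⟩
    have h3 : ContinuousOn (fun p : Cn n × ℝ => ε * ‖p.1‖ ^ 2 + (- (ε * R ^ 2)))
        (closure Ω ×ˢ Icc τ s) := by fun_prop
    have h4 : ContinuousOn (fun p : Cn n × ℝ => κ * (p.2 - τ)) (closure Ω ×ˢ Icc τ s) := by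
      fun_prop
    exact ((h2.add h3).sub h1).sub h4
  · intro z hz
    have h1 : ‖z‖ ^ 2 ≤ R ^ 2 := by
      have := hR z hz
      have h0 := norm_nonneg z
      nlinarith
    have h2 : ε * ‖z‖ ^ 2 ≤ ε * R ^ 2 := mul_le_mul_of_nonneg_left h1 hε.le
    simp only [sub_self, mul_zero]
    linarith
  · intro z hz t ht
    have hzc : z ∈ closure Ω := frontier_subset_closure hz
    have h1 : ‖z‖ ^ 2 ≤ R ^ 2 := by
      have := hR z hzc
      have h0 := norm_nonneg z
      nlinarith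
    have h2 : ε * ‖z‖ ^ 2 ≤ ε * R ^ 2 := mul_le_mul_of_nonneg_left h1 hε.le
    have h3 : u z τ = u z t := by
      have h4 := IsSolution.boundary_const hφ hu hz hτT
      have h5 := IsSolution.boundary_const hφ hu hz (hIcc t ht)
      exact_mod_cast h4.trans h5.symm
    have h4 : 0 ≤ κ * (t - τ) := mul_nonneg hκ0 (by linarith [ht.1])
    simp only [h3]
    linarith
  · intro z hz t ht hmaxz hmaxt _
    have hzΩ : z ∈ Ω := interior_subset hz
    have htT : t ∈ Ioo 0 T := hIcc t ⟨ht.1.le, ht.2⟩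
    have hCt := hu.contDiffAt_space hΩ hzΩ htT
    have hCτ := hu.contDiffAt_space hΩ hzΩ hτT
    have hCn : ContDiffAt ℝ 2 (fun y : Cn n => ε * ‖y‖ ^ 2 + (- (ε * R ^ 2))) z :=
      (contDiffAt_const.mul (contDiff_norm_sq ℝ).contDiffAt).add contDiffAt_const
    have hloc : IsLocalMax (fun y => (u y τ + (ε * ‖y‖ ^ 2 + (- (ε * R ^ 2)))) - u y t) z := by
      filter_upwards [hΩ.mem_nhds hzΩ] with y hy
      have := hmaxz y (subset_closure hy)
      linarith
    have hD : ∀ v, D2 (fun w => u w τ) z v v + 2 * ε * ‖v‖ ^ 2 ≤ D2 (fun w => u w t) z v v := by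
      intro v
      have h1 := D2_le_of_isLocalMax_sub (hCτ.add hCn) hCt hloc v
      have h2 := D2_add hCτ hCn v
      rw [D2_normSq] at h2
      exact h2 ▸ h1
    have hdet := det_ge_pow hε hCτ (hu.strictly_psh τ hτT z hzΩ) hCt hD
    have htime : HasDerivAt (fun r => u z τ + (ε * ‖z‖ ^ 2 + (- (ε * R ^ 2))) - u z r -
        κ * (r - τ)) (- Real.log (cHess (fun w => u w t) z).det.re - κ) t := by
      have h1 := (hu.hasDerivAt_time hΩ hzΩ htT).const_sub
        (u z τ + (ε * ‖z‖ ^ 2 + (- (ε * R ^ 2))))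
      have h2 : HasDerivAt (fun r => κ * (r - τ)) κ t := by
        simpa using ((hasDerivAt_id t).sub_const τ).const_mul κ
      exact h1.sub h2
    have h1 := deriv_nonneg_of_left_max ht.1 htime hmaxt
    have h2 : (n : ℝ) * Real.log ε ≤ Real.log (cHess (fun w => u w t) z).det.re := by
      rw [← Real.log_pow]
      exact Real.log_le_log (pow_pos hε n) hdet
    linarith

end Solution

section Solution2

variable {n : ℕ} {Ω : Set (Cn n)} {T : ℝ} {u₀ : Cn n → EReal} {φ u : Cn n → ℝ → ℝ}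

/-- Uniform upper bound near `t = 0` by any continuous majorant of `u₀`. -/
lemma IsSolution.initial_upper (hT : 0 < T) (hφ : IsData Ω T u₀ φ) (hu : IsSolution Ω T u₀ φ u)
    (hΩ : IsOpen Ω) (hb : Bornology.IsBounded Ω) {W₀ : Cn n → ℝ}
    (hW : Continuous W₀) (hW₀ : ∀ z ∈ closure Ω, u₀ z ≤ ((W₀ z : ℝ) : EReal))
    {ε' : ℝ} (hε' : 0 < ε') :
    ∃ t₀ : ℝ, 0 < t₀ ∧ t₀ ≤ T ∧ ∀ τ ∈ Ioo 0 t₀, ∀ z ∈ closure Ω, u z τ ≤ W₀ z + ε' := by
  obtain ⟨R, hR⟩ : ∃ R : ℝ, ∀ z ∈ closure Ω, ‖z‖ ≤ R := by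
    obtain ⟨R, hR⟩ := hb.closure.exists_norm_le
    exact ⟨R, hR⟩
  have main : ∃ t₀ : ℝ, 0 < t₀ ∧ ∀ τ ∈ Ioo 0 t₀, τ < T → ∀ z ∈ closure Ω, z ∈ closure Ω →
      u z τ ≤ W₀ z + ε' := by
    refine hb.isCompact_closure.induction_on
      (p := fun S => ∃ t₀ : ℝ, 0 < t₀ ∧ ∀ τ ∈ Ioo 0 t₀, τ < T → ∀ z ∈ S, z ∈ closure Ω →
        u z τ ≤ W₀ z + ε') ?_ ?_ ?_ ?_
    · exact ⟨1, one_pos, fun τ _ _ z hz => absurd hz (Set.notMem_empty z)⟩
    · rintro S S' hSS' ⟨t₀, ht₀, h⟩
      exact ⟨t₀, ht₀, fun τ hτ hτT z hz => h τ hτ hτT z (hSS' hz)⟩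
    · rintro S S' ⟨t₀, ht₀, h⟩ ⟨t₀', ht₀', h'⟩
      refine ⟨min t₀ t₀', lt_min ht₀ ht₀', fun τ hτ hτT z hz => ?_⟩
      rcases hz with hz | hz
      · exact h τ ⟨hτ.1, lt_of_lt_of_le hτ.2 (min_le_left _ _)⟩ hτT z hz
      · exact h' τ ⟨hτ.1, lt_of_lt_of_le hτ.2 (min_le_right _ _)⟩ hτT z hz
    · intro x hx
      -- parameters
      set ε : ℝ := ε' / (8 * (R ^ 2 + 1)) with hεdef
      have hR1 : 0 < R ^ 2 + 1 := by positivity
      have hε : 0 < ε := by positivity
      have hεR : ε * R ^ 2 ≤ ε' / 8 := by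
        rw [hεdef, div_mul_eq_mul_div, div_le_iff₀ (by positivity)]
        nlinarith
      set κ : ℝ := |(n * Real.log ε)| + 1 with hκdef
      have hκ0 : 0 < κ := by positivity
      have hκ : -(n * Real.log ε) < κ := by
        have := neg_abs_le (n * Real.log ε)
        linarith
      set s₁ : ℝ := min T (ε' / (8 * κ)) with hs₁
      have hs₁pos : 0 < s₁ := lt_min hT (by positivity)
      -- choice of the time s
      have hlt : u₀ x < ((W₀ x + ε' / 4 : ℝ) : EReal) := by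
        refine lt_of_le_of_lt (hW₀ x hx) ?_
        exact_mod_cast (by linarith : W₀ x < W₀ x + ε' / 4)
      have hev : ∀ᶠ t in 𝓝[>] (0 : ℝ), ((u x t : ℝ) : EReal) < ((W₀ x + ε' / 4 : ℝ) : EReal) :=
        (hu.initial x hx).eventually (gt_mem_nhds hlt)
      have hev2 : ∀ᶠ t in 𝓝[>] (0 : ℝ), t < s₁ :=
        mem_nhdsWithin_of_mem_nhds (Iio_mem_nhds hs₁pos)
      obtain ⟨s, hs1, hs2, hs3⟩ := (hev.and (hev2.and self_mem_nhdsWithin)).exists
      have hs0 : 0 < s := hs3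
      have hsT : s < T := lt_of_lt_of_le hs2 (min_le_left _ _)
      have hsκ : κ * s ≤ ε' / 8 := by
        have h1 : s ≤ ε' / (8 * κ) := (lt_of_lt_of_le hs2 (min_le_right _ _)).le
        have h2 : κ * s ≤ κ * (ε' / (8 * κ)) := mul_le_mul_of_nonneg_left h1 hκ0.le
        have h3 : κ * (ε' / (8 * κ)) = ε' / 8 := by field_simp
        linarith
      have hus : u x s < W₀ x + ε' / 4 := by exact_mod_cast hs1
      have hcont : ContinuousWithinAt (fun z => u z s - W₀ z) (closure Ω) x := by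
        have h1 : ContinuousOn (fun z : Cn n => u z s) (closure Ω) := by
          have h2 : ContinuousOn (fun z : Cn n => ((z, s) : Cn n × ℝ)) (closure Ω) := by fun_prop
          exact hu.continuousOn.comp h2 fun z hz => ⟨hz, hs0, hsT⟩
        exact (h1 x hx).sub hW.continuousWithinAt
      have hnhds : ∀ᶠ z in 𝓝[closure Ω] x, u z s - W₀ z < ε' / 2 :=
        hcont.eventually (gt_mem_nhds (by linarith))
      refine ⟨{z | u z s - W₀ z < ε' / 2}, hnhds, s, hs0, fun τ hτ hτT z hz hzc => ?_⟩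
      have h1 := IsSolution.almost_mono hφ hu hΩ hb hR hε hκ0.le hκ hτ.1 hτ.2.le hsT z hzc
      have h2 : κ * (s - τ) ≤ κ * s := mul_le_mul_of_nonneg_left (by linarith [hτ.1]) hκ0.le
      have h3 : u z s - W₀ z < ε' / 2 := hz
      linarith
  obtain ⟨t₀, ht₀, h⟩ := main
  refine ⟨min t₀ T, lt_min ht₀ hT, min_le_right _ _, fun τ hτ z hz => ?_⟩
  exact h τ ⟨hτ.1, lt_of_lt_of_le hτ.2 (min_le_left _ _)⟩
    (lt_of_lt_of_le hτ.2 (min_le_right _ _)) z hz hz

/-- The barrier. -/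
noncomputable def barrier {n : ℕ} (a : Cn n) (M C K δ : ℝ) (z : Cn n) (t : ℝ) : ℝ :=
  (M - (n + 1) * t) * Real.log (‖z - a‖ ^ 2 + δ) + (C + K * t)

/-- Comparison with the barrier. -/
lemma IsSolution.le_barrier (hT : 0 < T) (hφ : IsData Ω T u₀ φ) (hu : IsSolution Ω T u₀ φ u)
    (hΩ : IsOpen Ω) (hb : Bornology.IsBounded Ω) {a : Cn n} {M C K δ : ℝ}
    (hδ : 0 < δ) (hδ1 : δ ≤ 1) (hK1 : n * Real.log M < K)
    (hK2 : ∀ z ∈ closure Ω, (n + 1) * Real.log (‖z - a‖ ^ 2 + δ) ≤ K)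
    (hW₀ : ∀ z ∈ closure Ω, u₀ z ≤ ((barrier a M C K δ z 0 : ℝ) : EReal))
    {ε' : ℝ} (hε' : 0 < ε') {t₁ : ℝ} (ht₁ : 0 < t₁) (ht₁T : t₁ < T)
    (ht₁M : (n + 1) * t₁ < M) :
    ∀ z ∈ closure Ω, u z t₁ ≤ barrier a M C K δ z t₁ + ε' := by
  -- the barrier increases in time on the closure
  have hinc : ∀ z ∈ closure Ω, ∀ t : ℝ, 0 ≤ t → barrier a M C K δ z 0 ≤ barrier a M C K δ z t := by
    intro z hz t ht
    have h1 := mul_le_mul_of_nonneg_right (hK2 z hz) ht
    simp only [barrier]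
    nlinarith
  have hWc : Continuous fun z : Cn n => barrier a M C K δ z 0 := by
    simp only [barrier]
    refine (continuous_const.mul (Continuous.log (by fun_prop) fun z => ?_)).add continuous_const
    positivity
  obtain ⟨t₀, ht₀, ht₀T, hup⟩ := IsSolution.initial_upper hT hφ hu hΩ hb hWc hW₀ hε'
  set τ : ℝ := min (t₀ / 2) t₁ with hτdef
  have hτ : 0 < τ := lt_min (by positivity) ht₁
  have hτ0 : τ < t₀ := lt_of_le_of_lt (min_le_left _ _) (by linarith)
  have hτ1 : τ ≤ t₁ := min_le_right _ _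
  have hIcc : ∀ t ∈ Icc τ t₁, t ∈ Ioo 0 T := fun t ht =>
    ⟨lt_of_lt_of_le hτ ht.1, lt_of_le_of_lt ht.2 ht₁T⟩
  have hMt : ∀ t ∈ Icc τ t₁, 0 < M - (n + 1) * t := by
    intro t ht
    have : ((n : ℝ) + 1) * t ≤ (n + 1) * t₁ := mul_le_mul_of_nonneg_left ht.2 (by positivity)
    linarith
  have key := parabolic_max (Ω := Ω) hb (τ := τ) (t₁ := t₁)
    (g := fun z t => u z t - barrier a M C K δ z t - ε') ?_ ?_ ?_ ?_
  · intro z hz
    have h1 := key z hz t₁ ⟨hτ1, le_rfl⟩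
    linarith
  · have h1 : ContinuousOn (fun p : Cn n × ℝ => u p.1 p.2) (closure Ω ×ˢ Icc τ t₁) :=
      hu.continuousOn.mono (Set.prod_mono le_rfl hIcc)
    have h2 : Continuous (fun p : Cn n × ℝ => barrier a M C K δ p.1 p.2) := by
      simp only [barrier]
      refine (Continuous.mul (by fun_prop) (Continuous.log (by fun_prop) fun p => ?_)).add
        (by fun_prop)
      positivity
    exact (h1.sub h2.continuousOn).sub continuousOn_const
  · intro z hz
    have h1 := hup τ ⟨hτ, hτ0⟩ z hz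
    have h2 := hinc z hz τ hτ.le
    linarith
  · intro z hz t ht
    have hzc : z ∈ closure Ω := frontier_subset_closure hz
    have h1 : ((u z t : ℝ) : EReal) ≤ ((barrier a M C K δ z 0 : ℝ) : EReal) := by
      rw [IsSolution.boundary_const hφ hu hz (hIcc t ht)]
      exact hW₀ z hzc
    have h2 : u z t ≤ barrier a M C K δ z 0 := by exact_mod_cast h1
    have h3 := hinc z hzc t (hIcc t ht).1.le
    linarith
  · intro z hz t ht hmaxz hmaxt _
    have hzΩ : z ∈ Ω := interior_subset hz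
    have htI : t ∈ Icc τ t₁ := ⟨ht.1.le, ht.2⟩
    have htT : t ∈ Ioo 0 T := hIcc t htI
    have hCt := hu.contDiffAt_space hΩ hzΩ htT
    have hpd := hu.strictly_psh t htT z hzΩ
    set c := M - (n + 1) * t with hc
    have hcpos : 0 < c := hMt t htI
    set q := ‖z - a‖ ^ 2 + δ with hq
    have hqpos : 0 < q := by positivity
    have hCb : ContDiffAt ℝ 2 (fun y : Cn n => c * Real.log (‖y - a‖ ^ 2 + δ) + (C + K * t)) z :=
      (contDiff_infty.1 (contDiff_barrier a c (C + K * t) hδ) 2).contDiffAt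
    have hloc : IsLocalMax (fun y => u y t -
        (c * Real.log (‖y - a‖ ^ 2 + δ) + (C + K * t))) z := by
      filter_upwards [hΩ.mem_nhds hzΩ] with y hy
      have := hmaxz y (subset_closure hy)
      simp only [barrier] at this
      simp only [hc]
      linarith
    have hdet := det_le_barrier hδ hCt hpd (D2_le_of_isLocalMax_sub hCt hCb hloc)
    have hdetpos : 0 < (cHess (fun w => u w t) z).det.re := (Complex.lt_def.1 hpd.det_pos).1
    have hlog : Real.log (cHess (fun w => u w t) z).det.re ≤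
        n * Real.log M - (n + 1) * Real.log q := by
      have h1 := Real.log_le_log hdetpos hdet
      rw [Real.log_mul (by positivity) (by positivity), Real.log_pow,
        Real.log_div hcpos.ne' hqpos.ne', Real.log_div hδ.ne' hqpos.ne'] at h1
      have h2 : Real.log δ ≤ 0 := Real.log_nonpos hδ.le hδ1
      have h3 : Real.log c ≤ Real.log M := by
        apply Real.log_le_log hcpos
        have : 0 ≤ ((n : ℝ) + 1) * t := mul_nonneg (by positivity) htT.1.le
        linarith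
      have h4 : (n : ℝ) * Real.log c ≤ n * Real.log M :=
        mul_le_mul_of_nonneg_left h3 (by positivity)
      linarith
    have htime : HasDerivAt (fun r => u z r - barrier a M C K δ z r - ε')
        (Real.log (cHess (fun w => u w t) z).det.re - (-(n + 1) * Real.log q + K)) t := by
      have h1 := hu.hasDerivAt_time hΩ hzΩ htT
      have h2 : HasDerivAt (fun r => barrier a M C K δ z r) (-(n + 1) * Real.log q + K) t := by
        simp only [barrier]
        have h3 : HasDerivAt (fun r : ℝ => M - (n + 1) * r) (-(n + 1)) t := by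
          simpa using ((hasDerivAt_id t).const_mul ((n : ℝ) + 1)).const_sub M
        have h4 : HasDerivAt (fun r : ℝ => C + K * r) K t := by
          simpa using ((hasDerivAt_id t).const_mul K).const_add C
        exact (h3.mul_const (Real.log (‖z - a‖ ^ 2 + δ))).add h4
      exact (h1.sub h2).sub_const ε'
    have h1 := deriv_nonneg_of_left_max ht.1 htime hmaxt
    linarith

end Solution2

/-! ### Nonexistence when the initial datum has a logarithmic pole -/

section Nonexistence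

variable {n : ℕ} {Ω : Set (Cn n)} {T : ℝ} {u₀ : Cn n → EReal} {φ : Cn n → ℝ → ℝ}

lemma exists_norm_one (hn : 1 ≤ n) : ∃ w : Cn n, ‖w‖ = 1 :=
  ⟨e ⟨0, hn⟩, by simp [e]⟩

/-- A plurisubharmonic function with a logarithmic pole at `a` equals `-∞` at `a`. -/
lemma eq_bot_of_logPole (hn : 1 ≤ n) {U : Set (Cn n)} (hU : IsOpen U) (hpsh : IsPSH u₀ U)
    {a : Cn n} (ha : a ∈ U) {ν C : ℝ} (hν : 0 < ν)
    (hpole : ∀ᶠ z in 𝓝[≠] a, u₀ z ≤ ((ν * Real.log ‖z - a‖ + C : ℝ) : EReal)) : u₀ a = ⊥ := by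
  obtain ⟨w, hw⟩ := exists_norm_one hn
  rw [eventually_nhdsWithin_iff, Metric.eventually_nhds_iff] at hpole
  obtain ⟨r, hr, hr'⟩ := hpole
  obtain ⟨r', hr'0, hball⟩ := Metric.isOpen_iff.1 hU a ha
  rw [EReal.eq_bot_iff_forall_lt]
  intro y
  -- choose a small radius
  have hlim : Tendsto (fun s : ℝ => ν * Real.log s + C) (𝓝[>] 0) atBot :=
    tendsto_atBot_add_const_right _ _ (Real.tendsto_log_nhdsGT_zero.const_mul_atBot hν)
  have h1 : ∀ᶠ s in 𝓝[>] (0 : ℝ), ν * Real.log s + C < y := hlim.eventually (eventually_lt_atBot y)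
  have h2 : ∀ᶠ s in 𝓝[>] (0 : ℝ), s < min r r' :=
    mem_nhdsWithin_of_mem_nhds (Iio_mem_nhds (lt_min hr hr'0))
  obtain ⟨s, hs1, hs2, hs3⟩ := (h1.and (h2.and self_mem_nhdsWithin)).exists
  have hs0 : 0 < s := hs3
  have hnorm : ∀ ζ : ℂ, ‖ζ • ((s : ℂ) • w)‖ = ‖ζ‖ * s := by
    intro ζ
    rw [norm_smul, norm_smul, hw, mul_one, Complex.norm_real, Real.norm_of_nonneg hs0.le]
  have h3 := hpsh.submean a ((s : ℂ) • w) (fun ζ hζ => hball ?_)
    (fun _ => ν * Real.log s + C) continuous_const (fun ζ hζ => ?_)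
  · rw [Real.circleAverage_const] at h3
    refine lt_of_le_of_lt h3 ?_
    exact_mod_cast hs1
  · rw [Metric.mem_ball, dist_eq_norm, add_sub_cancel_left, hnorm]
    calc ‖ζ‖ * s ≤ 1 * s := mul_le_mul_of_nonneg_right hζ hs0.le
      _ < r' := by rw [one_mul]; exact lt_of_lt_of_le hs2 (min_le_right _ _)
  · have h4 := hr' (y := a + ζ • ((s : ℂ) • w)) (by
      rw [dist_eq_norm, add_sub_cancel_left, hnorm, hζ, one_mul]
      exact lt_of_lt_of_le hs2 (min_le_left _ _)) (by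
      simp only [mem_compl_iff, mem_singleton_iff, add_eq_left]
      intro h0
      have := hnorm ζ
      rw [h0, hζ, norm_zero, one_mul] at this
      exact hs0.ne this)
    rwa [add_sub_cancel_left, hnorm, hζ, one_mul] at h4

/-- Global upper bound by the logarithmic pole. -/
lemma global_pole_bound (hn : 1 ≤ n) (hb : Bornology.IsBounded Ω)
    (hpsh : ∃ U : Set (Cn n), IsOpen U ∧ closure Ω ⊆ U ∧ IsPSH u₀ U) {a : Cn n} (ha : a ∈ Ω)
    (hpole : HasLogPole u₀ a) :
    ∃ M C : ℝ, 0 < M ∧ ∀ δ : ℝ, 0 < δ → ∀ z ∈ closure Ω,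
      u₀ z ≤ ((M * Real.log (‖z - a‖ ^ 2 + δ) + C : ℝ) : EReal) := by
  obtain ⟨U, hU, hcl, hpsh⟩ := hpsh
  obtain ⟨ν, hν, C, hC⟩ := hpole
  have haU : a ∈ U := hcl (subset_closure ha)
  have hbot := eq_bot_of_logPole hn hU hpsh haU hν hC
  -- upper bound on the closure
  obtain ⟨C₁, hC₁⟩ : ∃ C₁ : ℝ, ∀ z ∈ closure Ω, u₀ z ≤ (C₁ : EReal) := by
    obtain ⟨x, hx, hmax⟩ := (hpsh.usc.mono hcl).exists_isMaxOn ⟨a, subset_closure ha⟩
      hb.isCompact_closure
    obtain ⟨C₁, hC₁⟩ := EReal.lt_iff_exists_real_btwn.1 (hpsh.lt_top x (hcl hx))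
    exact ⟨C₁, fun z hz => (hmax hz).trans hC₁.1.le⟩
  rw [eventually_nhdsWithin_iff, Metric.eventually_nhds_iff] at hC
  obtain ⟨r, hr, hr'⟩ := hC
  refine ⟨ν / 2, max C (C₁ - ν * Real.log r), by positivity, fun δ hδ z hz => ?_⟩
  by_cases hza : z = a
  · rw [hza, hbot]; exact bot_le
  · have hpos : 0 < ‖z - a‖ := norm_pos_iff.2 (sub_ne_zero.2 hza)
    have h1 : ν * Real.log ‖z - a‖ ≤ ν / 2 * Real.log (‖z - a‖ ^ 2 + δ) := by
      have h2 : Real.log (‖z - a‖ ^ 2) ≤ Real.log (‖z - a‖ ^ 2 + δ) :=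
        Real.log_le_log (by positivity) (by linarith)
      rw [Real.log_pow] at h2
      push_cast at h2
      nlinarith
    by_cases hzr : dist z a < r
    · refine (hr' hzr hza).trans ?_
      have := le_max_left C (C₁ - ν * Real.log r)
      exact_mod_cast (by linarith : ν * Real.log ‖z - a‖ + C ≤
        ν / 2 * Real.log (‖z - a‖ ^ 2 + δ) + max C (C₁ - ν * Real.log r))
    · refine (hC₁ z hz).trans ?_
      rw [not_lt, dist_eq_norm] at hzr
      have h2 : Real.log r ≤ Real.log ‖z - a‖ := Real.log_le_log hr hzr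
      have h3 : ν * Real.log r ≤ ν * Real.log ‖z - a‖ := mul_le_mul_of_nonneg_left h2 hν.le
      have := le_max_right C (C₁ - ν * Real.log r)
      exact_mod_cast (by linarith : C₁ ≤
        ν / 2 * Real.log (‖z - a‖ ^ 2 + δ) + max C (C₁ - ν * Real.log r))

/-- **Nonexistence**: no solution of the flow if `u₀` has a logarithmic pole in `Ω`. -/
theorem no_solution (hn : 1 ≤ n) (hΩ : IsOpen Ω) (hb : Bornology.IsBounded Ω) (hT : 0 < T)
    (hφ : IsData Ω T u₀ φ) {a : Cn n} (ha : a ∈ Ω) (hpole : HasLogPole u₀ a) :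
    ¬ ∃ u, IsSolution Ω T u₀ φ u := by
  rintro ⟨u, hu⟩
  obtain ⟨M, C, hM, hMC⟩ := global_pole_bound hn hb hφ.psh ha hpole
  -- a bound for the logarithm on the closure
  obtain ⟨R, hR⟩ : ∃ R : ℝ, ∀ z ∈ closure Ω, ‖z‖ ≤ R := by
    obtain ⟨R, hR⟩ := hb.closure.exists_norm_le
    exact ⟨R, hR⟩
  set L : ℝ := Real.log ((R + ‖a‖) ^ 2 + 1) with hL
  have hlog : ∀ δ : ℝ, 0 < δ → δ ≤ 1 → ∀ z ∈ closure Ω, Real.log (‖z - a‖ ^ 2 + δ) ≤ L := by
    intro δ hδ hδ1 z hz
    apply Real.log_le_log (by positivity)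
    have h1 : ‖z - a‖ ≤ R + ‖a‖ := (norm_sub_le z a).trans (by linarith [hR z hz])
    have h2 : ‖z - a‖ ^ 2 ≤ (R + ‖a‖) ^ 2 := by
      have := norm_nonneg (z - a)
      nlinarith
    linarith
  set K : ℝ := 1 + |n * Real.log M| + |(n + 1) * L| with hK
  have hK1 : n * Real.log M < K := by
    have := le_abs_self (n * Real.log M)
    have := abs_nonneg (((n : ℝ) + 1) * L)
    linarith
  have hK2 : ∀ δ : ℝ, 0 < δ → δ ≤ 1 → ∀ z ∈ closure Ω,
      (n + 1) * Real.log (‖z - a‖ ^ 2 + δ) ≤ K := by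
    intro δ hδ hδ1 z hz
    have h1 : ((n : ℝ) + 1) * Real.log (‖z - a‖ ^ 2 + δ) ≤ (n + 1) * L :=
      mul_le_mul_of_nonneg_left (hlog δ hδ hδ1 z hz) (by positivity)
    have := le_abs_self (((n : ℝ) + 1) * L)
    have := abs_nonneg (n * Real.log M)
    linarith
  -- a time before which the barrier keeps its pole
  set t₁ : ℝ := min (T / 2) (M / (2 * (n + 1))) with ht₁
  have ht₁0 : 0 < t₁ := lt_min (by positivity) (by positivity)
  have ht₁T : t₁ < T := lt_of_le_of_lt (min_le_left _ _) (by linarith)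
  have ht₁M : (n + 1) * t₁ < M := by
    have h1 : t₁ ≤ M / (2 * (n + 1)) := min_le_right _ _
    have h2 : ((n : ℝ) + 1) * t₁ ≤ (n + 1) * (M / (2 * (n + 1))) :=
      mul_le_mul_of_nonneg_left h1 (by positivity)
    have h3 : ((n : ℝ) + 1) * (M / (2 * (n + 1))) = M / 2 := by field_simp
    linarith
  set c : ℝ := M - (n + 1) * t₁ with hc
  have hcpos : 0 < c := by linarith
  -- comparison for every δ
  have hcomp : ∀ δ : ℝ, 0 < δ → δ ≤ 1 → u a t₁ ≤ c * Real.log δ + (C + K * t₁) + 1 := by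
    intro δ hδ hδ1
    have h1 := IsSolution.le_barrier (K := K) (C := C) (M := M) (a := a) hT hφ hu hΩ hb hδ hδ1
      hK1 (hK2 δ hδ hδ1) (fun z hz => by
        simp only [barrier, mul_zero, sub_zero, add_zero]
        exact hMC δ hδ z hz) one_pos ht₁0 ht₁T ht₁M a (subset_closure ha)
    simp only [barrier, sub_self, norm_zero] at h1
    norm_num at h1
    exact h1
  -- let δ → 0
  set N : ℝ := |u a t₁| + |C + K * t₁| + 2 with hN
  have h1 := hcomp (Real.exp (-(N / c))) (Real.exp_pos _) (Real.exp_le_one_iff.2 (by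
    have : 0 ≤ N / c := by positivity
    linarith))
  rw [Real.log_exp] at h1
  have h2 : c * -(N / c) = -N := by field_simp
  rw [h2] at h1
  have h3 := neg_abs_le (u a t₁)
  have h4 := le_abs_self (C + K * t₁)
  linarith

end Nonexistence

/-! ### Plurisubharmonicity of `log ‖z - a‖` -/

lemma log_le_circleAverage {A : ℝ} (hA : 0 < A) (b : ℂ) {h : ℂ → ℝ} (hc : Continuous h)
    (hh : ∀ ζ : ℂ, ‖ζ‖ = 1 → (A : ℂ) + ζ * b ≠ 0 → Real.log ‖(A : ℂ) + ζ * b‖ ≤ h ζ) :
    Real.log A ≤ Real.circleAverage h 0 1 := by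
  have hint : CircleIntegrable h 0 1 := hc.continuousOn.circleIntegrable (by norm_num)
  have hAC : (A : ℂ) ≠ 0 := by exact_mod_cast hA.ne'
  by_cases hb : b = 0
  · have h1 : Real.circleAverage (fun _ : ℂ => Real.log A) 0 1 ≤ Real.circleAverage h 0 1 := by
      refine Real.circleAverage_mono (circleIntegrable_const _ _ _) hint fun ζ hζ => ?_
      have hζ1 : ‖ζ‖ = 1 := by simpa using hζ
      have := hh ζ hζ1 (by simp [hb, hA.ne'])
      simpa [hb, abs_of_pos hA] using this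
    rwa [Real.circleAverage_const] at h1
  · set c : ℂ := -(A / b) with hcdef
    have hbn : 0 < ‖b‖ := norm_pos_iff.2 hb
    have hcn : ‖c‖ = A / ‖b‖ := by
      rw [hcdef, norm_neg, norm_div, Complex.norm_real, Real.norm_of_nonneg hA.le]
    have hcpos : 0 < ‖c‖ := by rw [hcn]; positivity
    set f : ℂ → ℝ := fun ζ => Real.log ‖b‖ + Real.log ‖ζ - c‖ with hf
    have hfint : CircleIntegrable f 0 1 :=
      (circleIntegrable_const _ _ _).add (circleIntegrable_log_norm_sub_const 1)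
    have hfavg : Real.circleAverage f 0 1 = Real.log ‖b‖ + Real.posLog ‖c‖ := by
      have h1 : Real.circleAverage f 0 1 = Real.circleAverage (fun _ : ℂ => Real.log ‖b‖) 0 1 +
          Real.circleAverage (fun ζ => Real.log ‖ζ - c‖) 0 1 :=
        Real.circleAverage_fun_add (circleIntegrable_const _ _ _)
          (circleIntegrable_log_norm_sub_const 1)
      rw [h1, Real.circleAverage_const, circleAverage_log_norm_sub_const_eq_posLog]
    have hlogA : Real.log A ≤ Real.circleAverage f 0 1 := by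
      rw [hfavg]
      have h2 : Real.log ‖c‖ ≤ Real.posLog ‖c‖ := le_max_right _ _
      have h3 : Real.log A = Real.log ‖b‖ + Real.log ‖c‖ := by
        rw [hcn, Real.log_div hA.ne' hbn.ne']; ring
      linarith
    set f' : ℂ → ℝ := Function.update f c (h c) with hf'
    have hEq : f =ᶠ[codiscreteWithin (Metric.sphere (0 : ℂ) |1|)] f' := by
      filter_upwards [compl_singleton_mem_codiscreteWithin c] with ζ hζ
      rw [hf', Function.update_of_ne hζ]
    have hf'int : CircleIntegrable f' 0 1 := CircleIntegrable.congr_codiscreteWithin hEq hfint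
    have havg : Real.circleAverage f 0 1 = Real.circleAverage f' 0 1 :=
      Real.circleAverage_congr_codiscreteWithin hEq one_ne_zero
    rw [havg] at hlogA
    refine hlogA.trans (Real.circleAverage_mono hf'int hint fun ζ hζ => ?_)
    have hζ1 : ‖ζ‖ = 1 := by simpa using hζ
    by_cases hζc : ζ = c
    · rw [hζc, hf', Function.update_self]
    · rw [hf', Function.update_of_ne hζc]
      have h4 : (A : ℂ) + ζ * b = b * (ζ - c) := by
        rw [hcdef]; field_simp; ring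
      have h5 : ζ - c ≠ 0 := sub_ne_zero.2 hζc
      have h6 := hh ζ hζ1 (by rw [h4]; exact mul_ne_zero hb h5)
      rw [h4, norm_mul, Real.log_mul hbn.ne' (norm_ne_zero_iff.2 h5)] at h6
      exact h6

lemma logE_eq {n : ℕ} {a z : Cn n} (h : z ≠ a) : logE a z = ((Real.log ‖z - a‖ : ℝ) : EReal) := by
  have hpos : 0 < ‖z - a‖ := norm_pos_iff.2 (sub_ne_zero.2 h)
  rw [logE, ← ofReal_norm, ENNReal.log_ofReal_of_pos hpos]

lemma logE_self {n : ℕ} (a : Cn n) : logE a a = ⊥ := by simp [logE]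

lemma isPSH_logE {n : ℕ} (a : Cn n) (U : Set (Cn n)) : IsPSH (logE a) U where
  usc := by
    have : Continuous (logE a) :=
      ENNReal.continuous_log.comp (continuous_enorm.comp (continuous_id.sub continuous_const))
    exact this.upperSemicontinuous.upperSemicontinuousOn _
  lt_top := fun z _ => by simp [logE]
  submean := by
    intro z w _ h hc hh
    by_cases hza : z = a
    · rw [hza, logE_self]; exact bot_le
    · rw [logE_eq hza]
      have hA : 0 < ‖z - a‖ := norm_pos_iff.2 (sub_ne_zero.2 hza)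
      have key := log_le_circleAverage hA (inner ℂ (z - a) w / (‖z - a‖ : ℂ)) hc ?_
      · exact_mod_cast key
      · intro ζ hζ hne
        have hAC : (‖z - a‖ : ℂ) ≠ 0 := by exact_mod_cast hA.ne'
        have h1 : (‖z - a‖ : ℂ) + ζ * (inner ℂ (z - a) w / (‖z - a‖ : ℂ)) =
            inner ℂ (z - a) (z + ζ • w - a) / (‖z - a‖ : ℂ) := by
          have h2 : z + ζ • w - a = (z - a) + ζ • w := by abel
          rw [h2, inner_add_right, inner_smul_right, inner_self_eq_norm_sq_to_K]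
          field_simp
          rfl
        have h3 : ‖(‖z - a‖ : ℂ) + ζ * (inner ℂ (z - a) w / (‖z - a‖ : ℂ))‖ ≤
            ‖z + ζ • w - a‖ := by
          rw [h1, norm_div, Complex.norm_real, norm_norm, div_le_iff₀ hA, mul_comm]
          exact norm_inner_le_norm _ _
        have h4 : z + ζ • w ≠ a := by
          intro h5
          apply hne
          rw [h1, h5, sub_self, inner_zero_right, zero_div]
        have h5 := hh ζ hζ
        rw [logE_eq h4] at h5
        have h6 : Real.log ‖z + ζ • w - a‖ ≤ h ζ := by exact_mod_cast h5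
        exact (Real.log_le_log (norm_pos_iff.2 hne) h3).trans h6

lemma hasLogPole_logE {n : ℕ} (a : Cn n) : HasLogPole (logE a) a := by
  refine ⟨1, one_pos, 0, ?_⟩
  filter_upwards [self_mem_nhdsWithin] with z hz
  rw [logE_eq hz]
  simp

/-- Boundary data for the initial datum `log ‖z - a‖`. -/
lemma exists_boundaryData {n : ℕ} {Ω : Set (Cn n)} (hΩ : IsOpen Ω) (T : ℝ) {a : Cn n}
    (ha : a ∈ Ω) : ∃ φ : Cn n → ℝ → ℝ, IsData Ω T (logE a) φ := by
  obtain ⟨r, hr, hball⟩ := Metric.isOpen_iff.1 hΩ a ha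
  let β : ContDiffBump a := ⟨r / 3, r / 2, by positivity, by linarith⟩
  have hpos : ∀ z : Cn n, 0 < ‖z - a‖ ^ 2 + β z := by
    intro z
    by_cases hza : z = a
    · have h1 : β a = 1 := β.one_of_mem_closedBall (Metric.mem_closedBall_self β.rIn_pos.le)
      rw [hza, h1]; positivity
    · have h1 : 0 < ‖z - a‖ := norm_pos_iff.2 (sub_ne_zero.2 hza)
      have h2 : 0 ≤ β z := β.nonneg
      positivity
  refine ⟨fun z _ => 1 / 2 * Real.log (‖z - a‖ ^ 2 + β z), ⟨univ, isOpen_univ, subset_univ _,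
    isPSH_logE a univ⟩, ?_, ?_⟩
  · have h1 : ContDiff ℝ ∞ (fun z : Cn n => 1 / 2 * Real.log (‖z - a‖ ^ 2 + β z)) := by
      refine contDiff_const.mul (ContDiff.log ?_ fun z => (hpos z).ne')
      exact ((contDiff_norm_sq ℝ).comp (contDiff_id.sub contDiff_const)).add β.contDiff
    exact (h1.comp contDiff_fst).contDiffOn
  · intro z hz t _
    have hz' : z ∉ Metric.ball a r := by
      intro h
      have h1 : z ∈ interior Ω := by
        rw [hΩ.interior_eq]; exact hball h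
      exact hz.2 h1
    have hza : z ≠ a := by
      rintro rfl
      exact hz' (Metric.mem_ball_self hr)
    have hβ : β z = 0 := by
      apply β.zero_of_le_dist
      rw [Metric.mem_ball, not_lt] at hz'
      change r / 2 ≤ dist z a
      linarith
    rw [logE_eq hza, hβ, add_zero, Real.log_pow]
    congr 1
    push_cast
    ring

/-! ### The unit ball; the main result -/

lemma posDef_cHess_normSq {n : ℕ} (z : Cn n) (d : ℝ) :
    (cHess (fun y : Cn n => 1 * ‖y‖ ^ 2 + d) z).PosDef := by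
  have hf : ContDiffAt ℝ 2 (fun y : Cn n => 1 * ‖y‖ ^ 2 + d) z :=
    (contDiffAt_const.mul (contDiff_norm_sq ℝ).contDiffAt).add contDiffAt_const
  refine Matrix.PosDef.of_dotProduct_mulVec_pos (cHess_isHermitian hf) fun x hx => ?_
  rw [cHess_quad hf, D2_normSq, D2_normSq, norm_smul, Complex.norm_I, one_mul]
  have h1 : xi x ≠ 0 := by
    intro h
    apply hx
    funext i
    have h2 := congrArg (fun v : Cn n => v.ofLp i) h
    simpa [xi] using h2
  have h2 : 0 < ‖xi x‖ := norm_pos_iff.2 h1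
  have h3 : (0 : ℝ) < (2 * 1 * ‖xi x‖ ^ 2 + 2 * 1 * ‖xi x‖ ^ 2) / 4 := by positivity
  exact_mod_cast h3

lemma isStrictlyPseudoconvex_ball {n : ℕ} :
    IsStrictlyPseudoconvex (Metric.ball (0 : Cn n) 1) where
  isOpen := Metric.isOpen_ball
  isConnected := ⟨⟨0, Metric.mem_ball_self one_pos⟩, (convex_ball _ _).isPreconnected⟩
  isBounded := Metric.isBounded_ball
  exists_defining := by
    have hC : ContDiff ℝ ∞ (fun y : Cn n => 1 * ‖y‖ ^ 2 + (-1)) :=
      (contDiff_const.mul (contDiff_norm_sq ℝ)).add contDiff_const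
    refine ⟨univ, fun y => 1 * ‖y‖ ^ 2 + (-1), isOpen_univ, subset_univ _, hC.contDiffOn,
      fun z _ => posDef_cHess_normSq z _, ?_, fun z hz => ?_⟩
    · ext z
      simp only [Metric.mem_ball, dist_zero_right, mem_univ, true_and, Set.mem_ofPred_eq]
      constructor
      · intro h
        have := norm_nonneg z
        nlinarith
      · intro h
        by_contra hcon
        push Not at hcon
        nlinarith
    · have hz1 : ‖z‖ = 1 := by
        rw [frontier_ball (0 : Cn n) one_ne_zero] at hz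
        simpa using hz
      refine ⟨by simp [hz1], fun h0 => ?_⟩
      have hline : HasDerivAt (fun x : ℝ => z + x • z) z 0 := by
        simpa using ((hasDerivAt_id (0 : ℝ)).smul_const z).const_add z
      have h1 : HasFDerivAt (fun y : Cn n => 1 * ‖y‖ ^ 2 + (-1))
          (fderiv ℝ (fun y : Cn n => 1 * ‖y‖ ^ 2 + (-1)) z) (z + (0 : ℝ) • z) := by
        rw [zero_smul, add_zero]
        exact (hC.differentiable (by simp) z).hasFDerivAt
      have h2 := h1.comp_hasDerivAt (0 : ℝ) hline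
      rw [h0] at h2
      have h3 : HasDerivAt (fun x : ℝ => (1 + x) ^ 2 - 1) 2 0 := by
        have := (((hasDerivAt_id (0 : ℝ)).const_add 1).pow 2).sub_const 1
        simpa using this
      have h4 : ((fun y : Cn n => 1 * ‖y‖ ^ 2 + (-1)) ∘ fun x : ℝ => z + x • z) =
          fun x : ℝ => (1 + x) ^ 2 - 1 := by
        funext x
        have : z + x • z = (1 + x) • z := by rw [add_smul, one_smul]
        simp only [Function.comp, this, norm_smul, hz1, mul_one, one_mul, Real.norm_eq_abs,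
          sq_abs]
        ring
      rw [h4] at h2
      have h5 := h3.unique h2
      simp at h5

/-- **Negative answer in every dimension, on every domain and on every time interval.**
The unit ball is a strictly pseudoconvex domain. For every bounded strictly pseudoconvex domain `Ω`
with smooth boundary and every `T > 0`: for every `a ∈ Ω` the plurisubharmonic function
`u₀ = log ‖z - a‖` has admissible boundary data `φ` for which the flow has no solution; and the flow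
has no solution for any admissible data `(u₀, φ)` such that `u₀` has a logarithmic pole in `Ω`. -/
theorem main (n : ℕ) (hn : 1 ≤ n) :
    IsStrictlyPseudoconvex (Metric.ball (0 : Cn n) 1) ∧
    ∀ (Ω : Set (Cn n)) (T : ℝ), IsStrictlyPseudoconvex Ω → 0 < T →
      (∀ a ∈ Ω, ∃ φ : Cn n → ℝ → ℝ, IsData Ω T (logE a) φ ∧
        ¬ ∃ u : Cn n → ℝ → ℝ, IsSolution Ω T (logE a) φ u) ∧
      (∀ (u₀ : Cn n → EReal) (φ : Cn n → ℝ → ℝ), IsData Ω T u₀ φ →
        (∃ a ∈ Ω, HasLogPole u₀ a) → ¬ ∃ u : Cn n → ℝ → ℝ, IsSolution Ω T u₀ φ u) := by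
  refine ⟨isStrictlyPseudoconvex_ball, fun Ω T hΩ hT => ⟨fun a ha => ?_, ?_⟩⟩
  · obtain ⟨φ, hφ⟩ := exists_boundaryData hΩ.isOpen T ha
    exact ⟨φ, hφ, no_solution hn hΩ.isOpen hΩ.isBounded hT hφ ha (hasLogPole_logE a)⟩
  · rintro u₀ φ hφ ⟨a, ha, hpole⟩
    exact no_solution hn hΩ.isOpen hΩ.isBounded hT hφ ha hpole

end Pool.Agent.Lib_helper62.MAFlow
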