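import Mathlib

/-!
Rational solutions of the functional equation of quantum multiplication and the group
generated by the polynomial solutions.
-/

namespace Pool.Agent.Lib_helper62.QuantumMul

open Polynomial

/-- `S(P)`: the positive integers in the multiplicative semigroup (with `1`) generated by `P`. -/
def SP (P : Set ℕ) : Set ℕ+ := {n | (n : ℕ) ∈ Submonoid.closure P}

/-- The rational function `f(q^m)`, for a rational function `f = f(q)` and `m ≥ 1`. -/
noncomputable def substPow (m : ℕ+) (f : RatFunc ℂ) : RatFunc ℂ :=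
  f.eval RatFunc.C (RatFunc.X ^ (m : ℕ))

/-- `Γ(P)`: sequences of polynomials with support exactly `S(P)` satisfying (FE). -/
def PolySol (P : Set ℕ) : Set (ℕ+ → ℂ[X]) :=
  {f | (∀ n, f n ≠ 0 ↔ n ∈ SP P) ∧ ∀ m n : ℕ+, f (m * n) = f m * (f n).comp (X ^ (m : ℕ))}

/-- Sequences of rational functions with support exactly `S(P)` satisfying (FE). -/
def RatSol (P : Set ℕ) : Set (ℕ+ → RatFunc ℂ) :=
  {f | (∀ n, f n ≠ 0 ↔ n ∈ SP P) ∧ ∀ m n : ℕ+, f (m * n) = f m * substPow m (f n)}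

open Classical in
/-- The sequence `F/G`: `f_n/g_n` for `n ∈ S(P)` and `0` otherwise. -/
noncomputable def quotSeq (P : Set ℕ) (F G : ℕ+ → ℂ[X]) : ℕ+ → RatFunc ℂ :=
  fun n => if n ∈ SP P then
    algebraMap ℂ[X] (RatFunc ℂ) (F n) / algebraMap ℂ[X] (RatFunc ℂ) (G n) else 0

/-- `K(Γ(P))`: all quotients `F/G` with `F, G ∈ Γ(P)`. -/
def KGamma (P : Set ℕ) : Set (ℕ+ → RatFunc ℂ) :=
  {R | ∃ F ∈ PolySol P, ∃ G ∈ PolySol P, R = quotSeq P F G}

end Pool.Agent.Lib_helper62.QuantumMul
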