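import Mathlib
import Pool.Agent.Lib_helper62.QuantumMulDefs

namespace Pool.Agent.Lib_helper62.QuantumMul

open Polynomial

/-! ### Substitution -/

lemma eval₂_C_ne_zero (m : ℕ+) {p : ℂ[X]} (hp : p ≠ 0) :
    p.eval₂ RatFunc.C ((RatFunc.X : RatFunc ℂ) ^ (m : ℕ)) ≠ 0 := by
  have h1 : p.eval₂ RatFunc.C ((RatFunc.X : RatFunc ℂ) ^ (m : ℕ)) =
      algebraMap ℂ[X] (RatFunc ℂ) (p.comp (X ^ (m : ℕ))) := by
    rw [Polynomial.comp, Polynomial.hom_eval₂]
    congr 1
    simp
  rw [h1]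
  intro h
  rw [map_eq_zero_iff _ (RatFunc.algebraMap_injective ℂ)] at h
  rw [← Polynomial.expand_eq_comp_X_pow] at h
  exact hp ((Polynomial.expand_eq_zero m.pos).1 h)

lemma eval₂_C_eq (m : ℕ+) (p : ℂ[X]) :
    p.eval₂ RatFunc.C ((RatFunc.X : RatFunc ℂ) ^ (m : ℕ)) =
      algebraMap ℂ[X] (RatFunc ℂ) (p.comp (X ^ (m : ℕ))) := by
  rw [Polynomial.comp, Polynomial.hom_eval₂]
  congr 1
  simp

lemma substPow_algebraMap (m : ℕ+) (p : ℂ[X]) :
    substPow m (algebraMap ℂ[X] (RatFunc ℂ) p) =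
      algebraMap ℂ[X] (RatFunc ℂ) (p.comp (X ^ (m : ℕ))) := by
  rw [substPow, RatFunc.eval_algebraMap, eval₂_C_eq]
  rfl

lemma substPow_mul (m : ℕ+) (f g : RatFunc ℂ) :
    substPow m (f * g) = substPow m f * substPow m g :=
  RatFunc.eval_mul _ _ (eval₂_C_ne_zero m f.denom_ne_zero) (eval₂_C_ne_zero m g.denom_ne_zero)

lemma substPow_zero (m : ℕ+) : substPow m 0 = 0 := by
  simp [substPow]

lemma substPow_div (m : ℕ+) (a b : ℂ[X]) (hb : b ≠ 0) :
    substPow m (algebraMap ℂ[X] (RatFunc ℂ) a / algebraMap ℂ[X] (RatFunc ℂ) b) =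
      algebraMap ℂ[X] (RatFunc ℂ) (a.comp (X ^ (m : ℕ))) /
        algebraMap ℂ[X] (RatFunc ℂ) (b.comp (X ^ (m : ℕ))) := by
  have hb' : algebraMap ℂ[X] (RatFunc ℂ) b ≠ 0 := by
    rwa [Ne, map_eq_zero_iff _ (RatFunc.algebraMap_injective ℂ)]
  have hbc : algebraMap ℂ[X] (RatFunc ℂ) (b.comp (X ^ (m : ℕ))) ≠ 0 := by
    rw [← eval₂_C_eq]; exact eval₂_C_ne_zero m hb
  rw [eq_div_iff hbc, ← substPow_algebraMap, ← substPow_algebraMap, ← substPow_mul,
    div_mul_cancel₀ _ hb']

/-! ### Membership in `S(P)` -/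

lemma mem_SP_iff {P : Set ℕ} (hP : ∀ p ∈ P, p.Prime) (n : ℕ+) :
    n ∈ SP P ↔ ∀ q : ℕ, q.Prime → q ∣ (n : ℕ) → q ∈ P := by
  constructor
  · intro h
    have key : ∀ x ∈ Submonoid.closure P, ∀ q : ℕ, q.Prime → q ∣ x → q ∈ P := by
      intro x hx
      induction hx using Submonoid.closure_induction with
      | mem x hx =>
        intro q hq hqx
        have := (Nat.prime_dvd_prime_iff_eq hq (hP x hx)).1 hqx
        rwa [this]
      | one =>
        intro q hq hq1
        exact absurd (Nat.dvd_one.1 hq1) hq.one_lt.ne'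
      | mul x y _ _ ihx ihy =>
        intro q hq hqxy
        rcases (Nat.Prime.dvd_mul hq).1 hqxy with h | h
        · exact ihx q hq h
        · exact ihy q hq h
    exact key n h
  · intro h
    have key : ∀ x : ℕ, x ≠ 0 → (∀ q : ℕ, q.Prime → q ∣ x → q ∈ P) →
        x ∈ Submonoid.closure P := by
      intro x
      induction x using Nat.recOnMul with
      | zero => intro h; exact absurd rfl h
      | one => intro _ _; exact Submonoid.one_mem _
      | prime p hp => intro _ h; exact Submonoid.subset_closure (h p hp dvd_rfl)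
      | mul a b iha ihb =>
        intro hab h
        have ha : a ≠ 0 := left_ne_zero_of_mul hab
        have hb : b ≠ 0 := right_ne_zero_of_mul hab
        exact Submonoid.mul_mem _ (iha ha fun q hq hqa => h q hq (hqa.mul_right b))
          (ihb hb fun q hq hqb => h q hq (hqb.mul_left a))
    exact key n n.ne_zero h

lemma mul_mem_SP_iff {P : Set ℕ} (hP : ∀ p ∈ P, p.Prime) (m n : ℕ+) :
    m * n ∈ SP P ↔ m ∈ SP P ∧ n ∈ SP P := by
  simp only [mem_SP_iff hP, PNat.mul_coe]
  constructor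
  · intro h
    exact ⟨fun q hq hqm => h q hq (hqm.mul_right _), fun q hq hqn => h q hq (hqn.mul_left _)⟩
  · rintro ⟨h1, h2⟩ q hq hqmn
    rcases (Nat.Prime.dvd_mul hq).1 hqmn with h | h
    · exact h1 q hq h
    · exact h2 q hq h

/-! ### Zeros of polynomial solutions outside the closed unit disc -/

/-- If `F(q) G(q^p) = G(q) F(q^r)` with distinct primes `p, r`, then `F` has no zero of modulus
greater than one. -/
lemma no_large_root {F G : ℂ[X]} (hF : F ≠ 0) (hG : G ≠ 0) {p r : ℕ} (hp : p.Prime)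
    (hr : r.Prime) (hpr : p ≠ r) (h : F * G.comp (X ^ p) = G * F.comp (X ^ r))
    (α : ℂ) (hα : 1 < ‖α‖) : F.eval α ≠ 0 := by
  -- evaluate the functional equation
  have hev : ∀ z : ℂ, F.eval z * G.eval (z ^ p) = G.eval z * F.eval (z ^ r) := by
    intro z
    have := congrArg (Polynomial.eval z) h
    simpa [Polynomial.eval_comp] using this
  -- step A : from a zero of F to a zero of G
  have stepA : ∀ z : ℂ, 1 < ‖z‖ → F.eval z = 0 →
      ∃ (w : ℂ) (j : ℕ), G.eval w = 0 ∧ ‖w‖ = ‖z‖ ^ (r ^ j) := by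
    intro z hz hFz
    by_contra hcon
    push Not at hcon
    have hall : ∀ j : ℕ, F.eval (z ^ (r ^ j)) = 0 := by
      intro j
      induction j with
      | zero => simpa using hFz
      | succ j ih =>
        have h1 := hev (z ^ (r ^ j))
        rw [ih, zero_mul] at h1
        rcases mul_eq_zero.1 h1.symm with h2 | h2
        · exact absurd (by simp) (hcon (z ^ (r ^ j)) j h2)
        · rw [← pow_mul, ← pow_succ] at h2
          exact h2
    have hinj : Function.Injective (fun j : ℕ => z ^ (r ^ j)) := by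
      intro i j hij
      have h1 : ‖z‖ ^ (r ^ i) = ‖z‖ ^ (r ^ j) := by
        have := congrArg norm hij
        simpa using this
      have h2 := (pow_right_injective₀ (zero_lt_one.trans hz) hz.ne') h1
      exact Nat.pow_right_injective hr.two_le h2
    have hfin : (Set.range (fun j : ℕ => z ^ (r ^ j))).Finite := by
      refine (F.rootSet_finite ℂ).subset ?_
      rintro _ ⟨j, rfl⟩
      rw [Polynomial.mem_rootSet]
      refine ⟨hF, ?_⟩
      simpa using hall j
    exact (Set.infinite_range_of_injective hinj) hfin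
  -- step B : from a zero `w` of G to a zero `w'` of G with `|w'|^p = |w|^(r^j)`
  have stepB : ∀ w : ℂ, 1 < ‖w‖ → G.eval w = 0 →
      ∃ (w' : ℂ) (j : ℕ), G.eval w' = 0 ∧ ‖w'‖ ^ p = ‖w‖ ^ (r ^ j) ∧ 1 < ‖w'‖ := by
    intro w hw hGw
    obtain ⟨δ, hδ⟩ := IsAlgClosed.exists_pow_nat_eq w hp.pos
    have hδn : ‖δ‖ ^ p = ‖w‖ := by rw [← norm_pow, hδ]
    have hδ1 : 1 < ‖δ‖ := by
      by_contra hcon
      have := pow_le_one₀ (n := p) (norm_nonneg δ) (not_lt.1 hcon)
      rw [hδn] at this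
      exact absurd hw (not_lt.2 this)
    have h1 := hev δ
    rw [hδ, hGw, mul_zero] at h1
    rcases mul_eq_zero.1 h1.symm with h2 | h2
    · exact ⟨δ, 0, h2, by simpa using hδn, hδ1⟩
    · have h3 : 1 < ‖δ ^ r‖ := by
        rw [norm_pow]; exact one_lt_pow₀ hδ1 hr.ne_zero
      obtain ⟨w', j, hw', hj⟩ := stepA _ h3 h2
      refine ⟨w', j + 1, hw', ?_, ?_⟩
      · rw [hj, norm_pow, ← hδn, ← pow_mul, ← pow_mul, ← pow_mul]
        congr 1
        ring
      · rw [hj]; exact one_lt_pow₀ h3 (pow_ne_zero _ hr.ne_zero)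
  intro hFα
  obtain ⟨w0, j0, hw0, hj0⟩ := stepA α hα hFα
  have hw01 : 1 < ‖w0‖ := by rw [hj0]; exact one_lt_pow₀ hα (pow_ne_zero _ hr.ne_zero)
  -- an infinite sequence of zeros of G
  have hseq : ∀ k : ℕ, ∃ (w : ℂ) (j : ℕ), G.eval w = 0 ∧ ‖w‖ ^ (p ^ k) = ‖w0‖ ^ (r ^ j) ∧
      1 < ‖w‖ := by
    intro k
    induction k with
    | zero => exact ⟨w0, 0, hw0, by simp, hw01⟩
    | succ k ih =>
      obtain ⟨w, j, hw, hj, hw1⟩ := ih
      obtain ⟨w', j', hw', hj', hw1'⟩ := stepB w hw1 hw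
      refine ⟨w', j + j', hw', ?_, hw1'⟩
      have : ‖w'‖ ^ p ^ (k + 1) = (‖w'‖ ^ p) ^ (p ^ k) := by rw [← pow_mul]; congr 1; ring
      rw [this, hj', ← pow_mul, mul_comm, pow_mul, hj, ← pow_mul]
      congr 1
      ring
  choose w j hw hj hw1 using hseq
  have hlt : ∀ k l : ℕ, k < l → w k ≠ w l := by
    intro k l hkl heq
    have h1 := hj l
    rw [← heq] at h1
    have h2 : p ^ l = p ^ k * p ^ (l - k) := by rw [← pow_add]; congr 1; omega
    rw [h2, pow_mul, hj k, ← pow_mul] at h1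
    have h3 := (pow_right_injective₀ (zero_lt_one.trans hw01) hw01.ne') h1
    have h4 : p ∣ r ^ j l := by
      have h5 : p ∣ p ^ (l - k) := dvd_pow_self p (by omega)
      have h6 : r ^ j k * p ^ (l - k) = r ^ j l := h3
      rw [← h6]
      exact h5.mul_left _
    have h5 := hp.dvd_of_dvd_pow h4
    exact hpr ((Nat.prime_dvd_prime_iff_eq hp hr).1 h5)
  have hinj : Function.Injective w := by
    intro k l hkl
    by_contra hne
    rcases lt_or_gt_of_ne hne with h1 | h1
    · exact hlt k l h1 hkl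
    · exact hlt l k h1 hkl.symm
  have hfin : (Set.range w).Finite := by
    refine (G.rootSet_finite ℂ).subset ?_
    rintro _ ⟨k, rfl⟩
    rw [Polynomial.mem_rootSet]
    refine ⟨hG, ?_⟩
    simpa using hw k
  exact (Set.infinite_range_of_injective hinj) hfin

/-! ### The case of at least two primes -/

open Classical in
/-- The rational solution `(q^n - 2)/(q - 2)`. -/
noncomputable def badSol (P : Set ℕ) : ℕ+ → RatFunc ℂ :=
  fun n => if n ∈ SP P then
    algebraMap ℂ[X] (RatFunc ℂ) (X ^ (n : ℕ) - C 2) / algebraMap ℂ[X] (RatFunc ℂ) (X - C 2) else 0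

lemma X_pow_sub_ne_zero (n : ℕ+) : (X ^ (n : ℕ) - C 2 : ℂ[X]) ≠ 0 :=
  Polynomial.X_pow_sub_C_ne_zero n.pos 2

lemma map_ne_zero' {p : ℂ[X]} (hp : p ≠ 0) : algebraMap ℂ[X] (RatFunc ℂ) p ≠ 0 := by
  rwa [Ne, map_eq_zero_iff _ (RatFunc.algebraMap_injective ℂ)]

lemma badSol_mem {P : Set ℕ} (hP : ∀ p ∈ P, p.Prime) : badSol P ∈ RatSol P := by
  have h2 : algebraMap ℂ[X] (RatFunc ℂ) (X - C 2) ≠ 0 := map_ne_zero' (X_sub_C_ne_zero 2)
  have hn : ∀ n : ℕ+, algebraMap ℂ[X] (RatFunc ℂ) (X ^ (n : ℕ) - C 2) ≠ 0 :=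
    fun n => map_ne_zero' (X_pow_sub_ne_zero n)
  refine ⟨fun n => ?_, fun m n => ?_⟩
  · by_cases h : n ∈ SP P
    · simp only [badSol, h, if_true, iff_true]
      exact div_ne_zero (hn n) h2
    · simp [badSol, h]
  · by_cases hm : m ∈ SP P
    · by_cases hnn : n ∈ SP P
      · have hmn : m * n ∈ SP P := (mul_mem_SP_iff hP m n).2 ⟨hm, hnn⟩
        simp only [badSol, hm, hnn, hmn, if_true]
        rw [substPow_div _ _ _ (X_sub_C_ne_zero 2)]
        have e1 : ((X ^ (n : ℕ) - C 2 : ℂ[X])).comp (X ^ (m : ℕ)) =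
            X ^ ((m * n : ℕ+) : ℕ) - C 2 := by
          simp [← pow_mul]
        have e2 : ((X - C 2 : ℂ[X])).comp (X ^ (m : ℕ)) = X ^ (m : ℕ) - C 2 := by
          simp
        rw [e1, e2]
        have hm0 := hn m
        rw [div_mul_div_comm, mul_comm (algebraMap ℂ[X] (RatFunc ℂ) (X ^ (m : ℕ) - C 2)),
          mul_div_mul_right _ _ hm0]
      · have hmn : m * n ∉ SP P := fun h => hnn ((mul_mem_SP_iff hP m n).1 h).2
        simp [badSol, hnn, hmn, substPow_zero]
    · have hmn : m * n ∉ SP P := fun h => hm ((mul_mem_SP_iff hP m n).1 h).1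
      simp [badSol, hm, hmn]

lemma mem_SP_of_mem {P : Set ℕ} {p : ℕ} (hp : p ∈ P) (hpos : 0 < p) :
    (⟨p, hpos⟩ : ℕ+) ∈ SP P := Submonoid.subset_closure hp

lemma badSol_not_mem {P : Set ℕ} (hP : ∀ p ∈ P, p.Prime) (hP2 : ¬ P.Subsingleton) :
    badSol P ∉ KGamma P := by
  rintro ⟨F, hF, G, hG, hFG⟩
  obtain ⟨p, hp, r, hr, hpr⟩ : ∃ p ∈ P, ∃ r ∈ P, p ≠ r := by
    simpa [Set.Subsingleton, not_forall] using hP2
  set p' : ℕ+ := ⟨p, (hP p hp).pos⟩ with hp'
  set r' : ℕ+ := ⟨r, (hP r hr).pos⟩ with hr'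
  have hpS : p' ∈ SP P := mem_SP_of_mem hp _
  have hrS : r' ∈ SP P := mem_SP_of_mem hr _
  have hFp : F p' ≠ 0 := (hF.1 p').2 hpS
  have hFr : F r' ≠ 0 := (hF.1 r').2 hrS
  have hGp : G p' ≠ 0 := (hG.1 p').2 hpS
  have hFE : F p' * (F r').comp (X ^ p) = F r' * (F p').comp (X ^ r) := by
    have h1 := hF.2 p' r'
    have h2 := hF.2 r' p'
    rw [mul_comm r' p'] at h2
    exact h1.symm.trans h2
  have h1 := congrFun hFG p'
  simp only [badSol, quotSeq, hpS, if_true] at h1
  rw [div_eq_div_iff (map_ne_zero' (X_sub_C_ne_zero 2)) (map_ne_zero' hGp), ← map_mul,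
    ← map_mul] at h1
  have h2 := RatFunc.algebraMap_injective ℂ h1
  obtain ⟨α, hα⟩ := IsAlgClosed.exists_pow_nat_eq (2 : ℂ) (hP p hp).pos
  have hα1 : 1 < ‖α‖ := by
    by_contra hcon
    have h3 := pow_le_one₀ (n := p) (norm_nonneg α) (not_lt.1 hcon)
    rw [← norm_pow, hα] at h3
    norm_num at h3
  have h3 := congrArg (Polynomial.eval α) h2
  have h4 : α ^ (p' : ℕ) = 2 := hα
  simp only [Polynomial.eval_mul, Polynomial.eval_sub, Polynomial.eval_pow, Polynomial.eval_X,
    Polynomial.eval_C, h4, sub_self, zero_mul] at h3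
  rcases mul_eq_zero.1 h3.symm with h5 | h5
  · exact no_large_root hFp hFr (hP p hp) (hP r hr) hpr hFE α hα1 h5
  · have h6 : α = 2 := sub_eq_zero.1 h5
    rw [h6] at hα
    have h7 : (2 : ℕ) ^ p = 2 := by exact_mod_cast hα
    have h8 : (2 : ℕ) ^ 1 < 2 ^ p := Nat.pow_lt_pow_right (by norm_num) (hP p hp).one_lt
    omega

/-! ### The case of at most one prime -/

lemma eq_pow_of_mem {P : Set ℕ} (hP : ∀ p ∈ P, p.Prime) {p : ℕ} (hsub : P ⊆ {p})
    {n : ℕ+} (hn : n ∈ SP P) : (n : ℕ) = p ^ ((n : ℕ).factorization p) := by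
  rw [mem_SP_iff hP] at hn
  apply Nat.eq_of_factorization_eq n.ne_zero
  · by_cases hp : p = 0
    · by_cases h1 : (n : ℕ) = 1
      · simp [h1]
      · obtain ⟨q, hq, hqn⟩ := Nat.exists_prime_and_dvd h1
        have : q = p := hsub (hn q hq hqn)
        rw [this, hp] at hq
        exact absurd hq Nat.not_prime_zero
    · exact pow_ne_zero _ hp
  · intro q
    by_cases hq : q.Prime
    · by_cases hqn : q ∣ (n : ℕ)
      · have hqp : q = p := hsub (hn q hq hqn)
        subst hqp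
        simp [hq.factorization]
      · rw [Nat.factorization_eq_zero_of_not_dvd hqn]
        by_cases hqp : q = p
        · subst hqp
          simp [Nat.factorization_eq_zero_of_not_dvd hqn]
        · by_cases hk : (n : ℕ).factorization p = 0
          · simp [hk]
          · have hpp : p.Prime := by
              by_contra hcon
              exact hk (Nat.factorization_eq_zero_of_not_prime _ hcon)
            rw [Nat.factorization_pow]
            simp [hpp.factorization, Ne.symm hqp]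
    · simp [Nat.factorization_eq_zero_of_not_prime _ hq]

open Classical in
/-- The polynomial solution with support `S(P)`, `P ⊆ {p}`, with value `a` at `p`. -/
noncomputable def powSol (P : Set ℕ) (p : ℕ) (a : ℂ[X]) : ℕ+ → ℂ[X] :=
  fun n => if n ∈ SP P then
    ∏ i ∈ Finset.range ((n : ℕ).factorization p), a.comp (X ^ (p ^ i)) else 0

lemma comp_X_pow_ne_zero {a : ℂ[X]} (ha : a ≠ 0) {k : ℕ} (hk : 0 < k) :
    a.comp (X ^ k) ≠ 0 := by
  rw [← Polynomial.expand_eq_comp_X_pow]
  exact (Polynomial.expand_ne_zero hk).2 ha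

lemma powSol_mem {P : Set ℕ} (hP : ∀ p ∈ P, p.Prime) {p : ℕ} (hsub : P ⊆ {p}) (a : ℂ[X])
    (ha : p ∈ P → a ≠ 0) : powSol P p a ∈ PolySol P := by
  refine ⟨fun n => ?_, fun m n => ?_⟩
  · by_cases h : n ∈ SP P
    · simp only [powSol, h, if_true, iff_true]
      rw [Finset.prod_ne_zero_iff]
      intro i hi
      have hk : (n : ℕ).factorization p ≠ 0 := by
        intro h0; rw [h0] at hi; simp at hi
      have hpp : p.Prime := by
        by_contra hcon
        exact hk (Nat.factorization_eq_zero_of_not_prime _ hcon)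
      have hpn : p ∣ (n : ℕ) := by
        by_contra hcon
        exact hk (Nat.factorization_eq_zero_of_not_dvd hcon)
      exact comp_X_pow_ne_zero (ha ((mem_SP_iff hP n).1 h p hpp hpn)) (pow_pos hpp.pos _)
    · simp [powSol, h]
  · by_cases hm : m ∈ SP P
    · by_cases hn : n ∈ SP P
      · have hmn : m * n ∈ SP P := (mul_mem_SP_iff hP m n).2 ⟨hm, hn⟩
        simp only [powSol, hm, hn, hmn, if_true]
        rw [PNat.mul_coe, Nat.factorization_mul m.ne_zero n.ne_zero, Finsupp.add_apply,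
          Finset.prod_range_add, Polynomial.prod_comp]
        congr 1
        apply Finset.prod_congr rfl
        intro i _
        rw [Polynomial.comp_assoc]
        congr 1
        rw [Polynomial.X_pow_comp, ← pow_mul]
        congr 1
        conv_rhs => rw [eq_pow_of_mem hP hsub hm]
        rw [← pow_add]
      · have hmn : m * n ∉ SP P := fun h => hn ((mul_mem_SP_iff hP m n).1 h).2
        simp [powSol, hn, hmn]
    · have hmn : m * n ∉ SP P := fun h => hm ((mul_mem_SP_iff hP m n).1 h).1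
      simp [powSol, hm, hmn]

lemma substPow_one (f : RatFunc ℂ) : substPow 1 f = f := by
  conv_lhs => rw [← RatFunc.num_div_denom f]
  rw [substPow_div _ _ _ f.denom_ne_zero]
  simp [RatFunc.num_div_denom]

lemma ratSol_one {P : Set ℕ} {R : ℕ+ → RatFunc ℂ} (hR : R ∈ RatSol P) : R 1 = 1 := by
  have h1 : R 1 ≠ 0 := (hR.1 1).2 (Submonoid.one_mem (Submonoid.closure P))
  have h2 := hR.2 1 1
  rw [substPow_one, mul_one] at h2
  exact (mul_eq_left₀ h1).1 h2.symm

lemma ratSol_pow {P : Set ℕ} {R : ℕ+ → RatFunc ℂ} (hR : R ∈ RatSol P) (p : ℕ+) (k : ℕ) :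
    R (p ^ k) = ∏ i ∈ Finset.range k, substPow (p ^ i) (R p) := by
  induction k with
  | zero => simp [ratSol_one hR]
  | succ k ih => rw [pow_succ, hR.2, ih, Finset.prod_range_succ]

lemma ratSol_subset {P : Set ℕ} (hP : ∀ p ∈ P, p.Prime) (hP1 : P.Subsingleton) :
    RatSol P ⊆ KGamma P := by
  intro R hR
  obtain ⟨p, hp0, hsub⟩ : ∃ p : ℕ, 0 < p ∧ P ⊆ {p} := by
    rcases hP1.eq_empty_or_singleton with h | ⟨p, h⟩
    · exact ⟨1, one_pos, by simp [h]⟩
    · exact ⟨p, (hP p (by simp [h])).pos, by simp [h]⟩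
  set p' : ℕ+ := ⟨p, hp0⟩ with hp'
  have hcoe : (p' : ℕ) = p := rfl
  have hnum : p ∈ P → (R p').num ≠ 0 := by
    intro hp
    exact RatFunc.num_ne_zero ((hR.1 p').2 (mem_SP_of_mem hp hp0))
  refine ⟨powSol P p (R p').num, powSol_mem hP hsub _ hnum,
    powSol P p (R p').denom, powSol_mem hP hsub _ (fun _ => (R p').denom_ne_zero), ?_⟩
  funext n
  by_cases hn : n ∈ SP P
  · simp only [quotSeq, powSol, hn, if_true]
    have hnp : n = p' ^ ((n : ℕ).factorization p) := by
      apply PNat.coe_injective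
      rw [PNat.pow_coe, hcoe]
      exact eq_pow_of_mem hP hsub hn
    conv_lhs => rw [hnp]
    rw [ratSol_pow hR, map_prod, map_prod, ← Finset.prod_div_distrib]
    apply Finset.prod_congr rfl
    intro i _
    conv_lhs => rw [← RatFunc.num_div_denom (R p')]
    rw [substPow_div _ _ _ (R p').denom_ne_zero, PNat.pow_coe, hcoe]
  · have : R n = 0 := by
      by_contra h
      exact hn ((hR.1 n).1 h)
    simp [quotSeq, hn, this]

/-- Let `P` be a set of primes. Every sequence of rational functions with support `S(P)`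
satisfying (FE) lies in `K(Γ(P))` if and only if `P` has at most one element. -/
theorem main (P : Set ℕ) (hP : ∀ p ∈ P, p.Prime) :
    RatSol P ⊆ KGamma P ↔ P.Subsingleton := by
  constructor
  · intro h
    by_contra hcon
    exact badSol_not_mem hP hcon (h (badSol_mem hP))
  · exact ratSol_subset hP

end Pool.Agent.Lib_helper62.QuantumMul
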